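import Pool.Agent.Lib.GR3.Basic
import Pool.Agent.Lib.ILT.Defs

/-!
# The disjoint union of a sequence of finite graphs (with few imports)
-/

set_option autoImplicit false

namespace Pool.Agent.Lib.GSI

open Finset Classical
open Pool.Agent.Lib.GR3 (Env nb Cl Sm mem_nb)

namespace Sg_

/-- The disjoint union of a sequence of graphs. -/
def sg {W : ℕ → Type} (G : ∀ n, SimpleGraph (W n)) : SimpleGraph (Σ n, W n) where
  Adj u v := ∃ (n : ℕ) (a b : W n), u = ⟨n, a⟩ ∧ v = ⟨n, b⟩ ∧ (G n).Adj a b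
  symm := ⟨fun _ _ ⟨n, a, b, h1, h2, h3⟩ => ⟨n, b, a, h2, h1, h3.symm⟩⟩
  loopless := ⟨fun u ⟨n, a, b, h1, h2, h3⟩ => by
    rw [h1] at h2
    cases h2
    exact h3.ne rfl⟩

variable {W : ℕ → Type} {G : ∀ n, SimpleGraph (W n)}

lemma sg_adj {n : ℕ} {a b : W n} :
    (sg G).Adj ⟨n, a⟩ ⟨n, b⟩ ↔ (G n).Adj a b := by
  constructor
  · rintro ⟨n', a', b', h1, h2, h3⟩
    cases h1
    cases h2
    exact h3
  · exact fun h => ⟨n, a, b, rfl, rfl, h⟩

lemma sg_fst {u v : Σ n, W n} (h : (sg G).Adj u v) : u.1 = v.1 := by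
  obtain ⟨n, a, b, h1, h2, -⟩ := h
  rw [h1, h2]

lemma sg_nbr {n : ℕ} {a : W n} {v : Σ n, W n} (h : (sg G).Adj ⟨n, a⟩ v) :
    ∃ b : W n, v = ⟨n, b⟩ := by
  obtain ⟨n', a', b', h1, h2, -⟩ := h
  cases h1
  exact ⟨b', h2⟩

lemma mk_inj (n : ℕ) : Function.Injective (fun a : W n => (⟨n, a⟩ : Σ n, W n)) := by
  intro a b h
  cases h
  rfl

/-- The environment of a sequence of finite graphs. -/
noncomputable def env (G : ∀ n, SimpleGraph (W n)) (hW : ∀ n, Finite (W n)) :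
    Env (Σ n, W n) where
  G := sg G
  c := Sigma.fst
  fib n := (@Finset.univ (W n) (@Fintype.ofFinite _ (hW n))).image (fun a => ⟨n, a⟩)
  mem_fib n v := by
    rw [Finset.mem_image]
    constructor
    · rintro ⟨a, -, h⟩
      rw [← h]
    · intro h
      subst h
      exact ⟨v.2, @Finset.mem_univ _ (@Fintype.ofFinite _ (hW v.1)) _, rfl⟩
  adj_c _ _ h := sg_fst h

/-- The VC dimension of the disjoint union. -/
lemma vc_sg {D : ℕ} (hW : ∀ n, Finite (W n)) (h : ∀ n, GIT.VC (G n) D) :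
    GIT.VC (sg G) (D + 2) := by
  intro U hU
  obtain ⟨u, hu⟩ : U.Nonempty := by
    rw [← Finset.card_pos]
    omega
  by_cases hall : ∀ v ∈ U, v.1 = u.1
  · obtain ⟨n, a0⟩ := u
    have : Fintype (W n) := @Fintype.ofFinite _ (hW n)
    set U' : Finset (W n) := (Finset.univ.filter (fun a => (⟨n, a⟩ : Σ n, W n) ∈ U)).erase a0
      with hU'
    have hmem : ∀ a : W n, a ∈ U' ↔ a ≠ a0 ∧ (⟨n, a⟩ : Σ n, W n) ∈ U := by
      intro a
      rw [hU', Finset.mem_erase, Finset.mem_filter]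
      simp
    have hUe : U = insert ⟨n, a0⟩ (U'.image (fun a => (⟨n, a⟩ : Σ n, W n))) := by
      ext v
      rw [Finset.mem_insert, Finset.mem_image]
      constructor
      · intro hv
        have h1 : v.1 = n := hall v hv
        obtain ⟨n', b⟩ := v
        have h2 : n' = n := h1
        subst h2
        by_cases hb : b = a0
        · left
          rw [hb]
        · exact Or.inr ⟨b, (hmem b).2 ⟨hb, hv⟩, rfl⟩
      · rintro (h1 | ⟨b, hb, h1⟩)
        · rw [h1]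
          exact hu
        · rw [← h1]
          exact ((hmem b).1 hb).2
    have hcard : D ≤ U'.card := by
      have h1 : U.card ≤ U'.card + 1 := by
        rw [hUe]
        refine (Finset.card_insert_le _ _).trans ?_
        exact Nat.add_le_add_right Finset.card_image_le 1
      omega
    obtain ⟨T, hT, hT'⟩ := h n U' hcard
    refine ⟨insert ⟨n, a0⟩ (T.image (fun a => (⟨n, a⟩ : Σ n, W n))), ?_, ?_⟩
    · intro v hv
      rw [hUe]
      rw [Finset.mem_insert] at hv ⊢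
      rcases hv with hv | hv
      · exact Or.inl hv
      · exact Or.inr (Finset.image_subset_image hT hv)
    · intro v hv
      have h0 : (⟨n, a0⟩ : Σ n, W n) ∈ FracGS.nb (sg G) U v := by
        rw [hv]
        exact Finset.mem_insert_self _ _
      have hva : (sg G).Adj v ⟨n, a0⟩ := (Finset.mem_filter.1 h0).2
      obtain ⟨b, hb⟩ := sg_nbr hva.symm
      subst hb
      refine hT' b ?_
      ext a
      have h1 : (⟨n, a⟩ : Σ n, W n) ∈ FracGS.nb (sg G) U ⟨n, b⟩ ↔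
          (⟨n, a⟩ : Σ n, W n) ∈ insert (⟨n, a0⟩ : Σ n, W n)
            (T.image (fun a => (⟨n, a⟩ : Σ n, W n))) := by
        rw [hv]
      unfold FracGS.nb at h1 ⊢
      rw [Finset.mem_filter, Finset.mem_insert, Finset.mem_image] at h1
      rw [Finset.mem_filter]
      constructor
      · rintro ⟨h2, h3⟩
        rcases h1.1 ⟨((hmem a).1 h2).2, sg_adj.2 h3⟩ with h4 | ⟨a', h4, h5⟩
        · exact (((hmem a).1 h2).1 (mk_inj n h4)).elim
        · have h6 : a' = a := mk_inj n h5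
          rw [← h6]
          exact h4
      · intro h2
        exact ⟨hT h2, sg_adj.1 (h1.2 (Or.inr ⟨a, h2, rfl⟩)).2⟩
  · push Not at hall
    obtain ⟨v, hv, hvu⟩ := hall
    refine ⟨U, subset_rfl, fun z hz => hvu ?_⟩
    have h1 : u ∈ FracGS.nb (sg G) U z := by
      rw [hz]
      exact hu
    have h2 : v ∈ FracGS.nb (sg G) U z := by
      rw [hz]
      exact hv
    have h3 := sg_fst (Finset.mem_filter.1 h1).2
    have h4 := sg_fst (Finset.mem_filter.1 h2).2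
    rw [← h3, ← h4]

/-- The law for the disjoint union. -/
lemma law_sg (hW : ∀ n, Finite (W n)) {M C : ℕ} (h : ∀ n, ILT.Law (G n) M C)
    (S : Set (Σ n, W n)) :
    Cl (env G hW) {v | v ∉ S ∧ 1 ≤ (nb (env G hW) S v).card ∧ (nb (env G hW) S v).card ≤ M} C := by
  have h1 : ∀ n, ((G n).induce {v | v ∉ {a : W n | (⟨n, a⟩ : Σ n, W n) ∈ S} ∧
      0 < (ILT.nbs (G n) {a : W n | (⟨n, a⟩ : Σ n, W n) ∈ S} v).ncard ∧
      (ILT.nbs (G n) {a : W n | (⟨n, a⟩ : Σ n, W n) ∈ S} v).ncard ≤ M}).Colorable C :=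
    fun n => h n _
  have h2 : ∀ n, Nonempty (((G n).induce {v | v ∉ {a : W n | (⟨n, a⟩ : Σ n, W n) ∈ S} ∧
      0 < (ILT.nbs (G n) {a : W n | (⟨n, a⟩ : Σ n, W n) ∈ S} v).ncard ∧
      (ILT.nbs (G n) {a : W n | (⟨n, a⟩ : Σ n, W n) ∈ S} v).ncard ≤ M}).Coloring (Fin C)) :=
    fun n => h1 n
  have φ := fun n => (h2 n).some
  have hcard : ∀ (n : ℕ) (a : W n), (nb (env G hW) S ⟨n, a⟩).card =
      (ILT.nbs (G n) {a : W n | (⟨n, a⟩ : Σ n, W n) ∈ S} a).ncard := by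
    intro n a
    rw [← Set.ncard_coe_finset, ← Set.ncard_image_of_injective _ (mk_inj n)]
    congr 1
    ext v
    rw [Finset.mem_coe, mem_nb, Set.mem_image]
    constructor
    · rintro ⟨h3, h4⟩
      obtain ⟨b, rfl⟩ := sg_nbr h4
      exact ⟨b, ⟨h3, sg_adj.1 h4⟩, rfl⟩
    · rintro ⟨b, ⟨h3, h4⟩, rfl⟩
      exact ⟨h3, sg_adj.2 h4⟩
  have hmem : ∀ (n : ℕ) (a : W n), (⟨n, a⟩ : Σ n, W n) ∈
      {v | v ∉ S ∧ 1 ≤ (nb (env G hW) S v).card ∧ (nb (env G hW) S v).card ≤ M} →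
      a ∈ {v | v ∉ {a : W n | (⟨n, a⟩ : Σ n, W n) ∈ S} ∧
      0 < (ILT.nbs (G n) {a : W n | (⟨n, a⟩ : Σ n, W n) ∈ S} v).ncard ∧
      (ILT.nbs (G n) {a : W n | (⟨n, a⟩ : Σ n, W n) ∈ S} v).ncard ≤ M} := by
    rintro n a ⟨h3, h4, h5⟩
    rw [hcard] at h4 h5
    exact ⟨h3, h4, h5⟩
  refine ⟨fun v => if hv : v.2 ∈ {u | u ∉ {a : W v.1 | (⟨v.1, a⟩ : Σ n, W n) ∈ S} ∧
      0 < (ILT.nbs (G v.1) {a : W v.1 | (⟨v.1, a⟩ : Σ n, W n) ∈ S} u).ncard ∧
      (ILT.nbs (G v.1) {a : W v.1 | (⟨v.1, a⟩ : Σ n, W n) ∈ S} u).ncard ≤ M} then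
        ((φ v.1) ⟨v.2, hv⟩).val else 0, ?_, ?_⟩
  · rintro ⟨n, a⟩ hv
    have h3 := hmem n a hv
    simp only [dif_pos h3]
    exact ((φ n) ⟨a, h3⟩).2
  · rintro ⟨n, a⟩ hu v hv hadj
    obtain ⟨b, rfl⟩ := sg_nbr hadj
    have h3 := hmem n a hu
    have h4 := hmem n b hv
    simp only [dif_pos h3, dif_pos h4]
    intro h5
    exact (φ n).valid (v := ⟨a, h3⟩) (w := ⟨b, h4⟩) (sg_adj.1 hadj) (Fin.ext h5)

end Sg_

end Pool.Agent.Lib.GSI
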