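import Pool.Agent.Lib.GIT.FrC

/-!
# The VC dimension of graphs without an induced tree is bounded (with few imports)
-/

set_option autoImplicit false

namespace Pool.Agent.Lib.GSI

open Finset Classical
open Pool.Agent.Lib.FracGS (nb wnb om pat mem_nb)
open Pool.Agent.Lib.GSR3 (Stab)
open Pool.Agent.Lib.GIT (Frac VC)

namespace Vc_

/-- Sauer-Shelah. -/
lemma sauer {α : Type} [DecidableEq α] (𝒜 : Finset (Finset α)) (S : Finset α)
    (h𝒜 : ∀ A ∈ 𝒜, A ⊆ S) (t : ℕ) (hno : ∀ T, 𝒜.Shatters T → T.card < t) :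
    𝒜.card ≤ ∑ k ∈ Finset.range t, (S.card).choose k := by
  refine (Finset.card_le_card_shatterer 𝒜).trans ?_
  have hsub : 𝒜.shatterer ⊆ (Finset.range t).biUnion fun k => Finset.powersetCard k S := by
    intro T hT
    rw [Finset.mem_shatterer] at hT
    obtain ⟨A, hA, hTA⟩ := hT.exists_superset
    exact Finset.mem_biUnion.2 ⟨T.card, Finset.mem_range.2 (hno T hT),
      Finset.mem_powersetCard.2 ⟨hTA.trans (h𝒜 A hA), rfl⟩⟩
  refine (Finset.card_le_card hsub).trans (Finset.card_biUnion_le.trans ?_)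
  exact Finset.sum_le_sum fun k _ => (Finset.card_powersetCard k S).le

lemma sum_choose_le (n t : ℕ) : ∑ k ∈ Finset.range t, n.choose k ≤ (n + 1) ^ t := by
  rw [add_pow]
  refine (Finset.sum_le_sum_of_subset (Finset.range_mono (Nat.le_succ t))).trans ?_
  refine Finset.sum_le_sum fun k hk => ?_
  rw [one_pow, mul_one]
  have h1 : 1 ≤ t.choose k := Nat.choose_pos (Nat.lt_succ_iff.1 (Finset.mem_range.1 hk))
  calc n.choose k ≤ n ^ k := Nat.choose_le_pow n k
    _ ≤ n ^ k * t.choose k := Nat.le_mul_of_pos_right _ h1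

lemma exists_m (K t : ℕ) : ∃ m : ℕ, K * (m + 1) ^ t < 2 ^ m := by
  have h := tendsto_pow_const_div_const_pow_of_one_lt t (show (1 : ℝ) < 2 by norm_num)
  have hK : (0 : ℝ) < 1 / (2 * (K + 1)) := by positivity
  have h1 := (h.eventually (gt_mem_nhds hK)).and (Filter.eventually_ge_atTop 1)
  obtain ⟨n, hn, hn1⟩ := h1.exists
  obtain ⟨m, rfl⟩ : ∃ m, n = m + 1 := ⟨n - 1, by omega⟩
  refine ⟨m, ?_⟩
  have h2 : (0 : ℝ) < 2 ^ (m + 1) := by positivity
  rw [div_lt_div_iff₀ h2 (by positivity)] at hn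
  push_cast at hn
  have h3 : ((K * (m + 1) ^ t : ℕ) : ℝ) < ((2 ^ m : ℕ) : ℝ) := by
    push_cast
    have h4 : (0 : ℝ) ≤ ((m : ℝ) + 1) ^ t := by positivity
    have h5 : (2 : ℝ) ^ (m + 1) = 2 * 2 ^ m := by rw [pow_succ]; ring
    rw [h5] at hn
    nlinarith
  exact_mod_cast h3

/-- The set `S` is shattered by the neighbourhoods. -/
def Sh {V : Type} (G : SimpleGraph V) (S : Finset V) : Prop :=
  ∀ T, T ⊆ S → ∃ u : V, ∀ s ∈ S, G.Adj u s ↔ s ∈ T

lemma Sh.mono {V : Type} {G : SimpleGraph V} {S S' : Finset V} (h : Sh G S) (hS : S' ⊆ S) :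
    Sh G S' := by
  intro T hT
  obtain ⟨u, hu⟩ := h T (hT.trans hS)
  exact ⟨u, fun s hs => hu s (hS hs)⟩

/-- The embedding of a bipartite graph. -/
lemma embed {V W : Type} [Fintype W] {G : SimpleGraph V} {F : SimpleGraph W}
    (hF : F.Colorable 2) (T : Finset V) (hT : T.card = Fintype.card W) (s0 : V)
    (hst : ∀ u ∈ T, ∀ v ∈ T, ¬ G.Adj u v) (hs0 : ∀ u ∈ T, ¬ G.Adj u s0)
    (vA : Finset V → V) (hvs : ∀ P, P ⊆ T → G.Adj (vA P) s0)
    (hvt : ∀ P, P ⊆ T → ∀ s ∈ T, G.Adj (vA P) s ↔ s ∈ P)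
    (hvv : ∀ P, P ⊆ T → ∀ P', P' ⊆ T → ¬ G.Adj (vA P) (vA P')) : Nonempty (F ↪g G) := by
  obtain ⟨c⟩ := hF
  have hcard : Fintype.card W = Fintype.card {x // x ∈ T} := by
    rw [Fintype.card_coe, hT]
  let i : W ≃ {x // x ∈ T} := Fintype.equivOfCardEq hcard
  have hi : ∀ w, (i w : V) ∈ T := fun w => (i w).2
  have hinj : ∀ w w', (i w : V) = i w' → w = w' := fun w w' h => i.injective (Subtype.ext h)
  let P : W → Finset V := fun w =>
    (Finset.univ.filter fun w' => F.Adj w' w ∨ w' = w).image fun w' => (i w' : V)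
  have hP : ∀ w, P w ⊆ T := by
    intro w a ha
    obtain ⟨w', -, rfl⟩ := Finset.mem_image.1 ha
    exact hi w'
  have hmem : ∀ w w', (i w' : V) ∈ P w ↔ (F.Adj w' w ∨ w' = w) := by
    intro w w'
    constructor
    · intro h
      obtain ⟨w'', h1, h2⟩ := Finset.mem_image.1 h
      rw [← hinj _ _ h2]
      exact (Finset.mem_filter.1 h1).2
    · intro h
      exact Finset.mem_image.2 ⟨w', Finset.mem_filter.2 ⟨Finset.mem_univ _, h⟩, rfl⟩
  have hcol : ∀ w w', F.Adj w w' → c w ≠ c w' := fun w w' h => c.valid h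
  let φ : W → V := fun w => if c w = 0 then (i w : V) else vA (P w)
  have h0 : ∀ w, c w = 0 → φ w = (i w : V) := fun w h => if_pos h
  have h1 : ∀ w, c w ≠ 0 → φ w = vA (P w) := fun w h => if_neg h
  have hne : ∀ w w', c w = 0 → c w' ≠ 0 → φ w ≠ φ w' := by
    intro w w' h h' he
    rw [h0 w h, h1 w' h'] at he
    have := hvs (P w') (hP w')
    rw [← he] at this
    exact hs0 _ (hi w) this
  have htwo : ∀ a b : Fin 2, a ≠ 0 → b ≠ 0 → a = b := by decide
  have hφ : Function.Injective φ := by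
    intro w w' he
    by_cases h : c w = 0
    · by_cases h' : c w' = 0
      · rw [h0 w h, h0 w' h'] at he
        exact hinj _ _ he
      · exact absurd he (hne w w' h h')
    · by_cases h' : c w' = 0
      · exact absurd he.symm (hne w' w h' h)
      · rw [h1 w h, h1 w' h'] at he
        have e1 : (i w : V) ∈ P w := (hmem w w).2 (Or.inr rfl)
        have e2 := (hvt (P w) (hP w) _ (hi w)).2 e1
        rw [he] at e2
        rcases (hmem w' w).1 ((hvt (P w') (hP w') _ (hi w)).1 e2) with h2 | h2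
        · exact absurd (htwo _ _ h h') (hcol _ _ h2)
        · exact h2
  have hmix : ∀ w w', c w = 0 → c w' ≠ 0 → (G.Adj (φ w) (φ w') ↔ F.Adj w w') := by
    intro w w' h h'
    rw [h0 w h, h1 w' h', G.adj_comm, hvt (P w') (hP w') _ (hi w), hmem w' w]
    constructor
    · rintro (h2 | h2)
      · exact h2
      · rw [h2] at h
        exact absurd h h'
    · exact Or.inl
  refine ⟨⟨⟨φ, hφ⟩, ?_⟩⟩
  intro w w'
  change G.Adj (φ w) (φ w') ↔ F.Adj w w'
  by_cases h : c w = 0
  · by_cases h' : c w' = 0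
    · refine iff_of_false ?_ fun h2 => hcol _ _ h2 (h.trans h'.symm)
      rw [h0 w h, h0 w' h']
      exact hst _ (hi w) _ (hi w')
    · exact hmix w w' h h'
  · by_cases h' : c w' = 0
    · rw [G.adj_comm, F.adj_comm]
      exact hmix w' w h' h
    · refine iff_of_false ?_ fun h2 => hcol _ _ h2 (htwo _ _ h h')
      rw [h1 w h, h1 w' h']
      exact hvv _ (hP w) _ (hP w')

/-- The parity of the depth. -/
def dep (par : ℕ → ℕ) (h : ∀ j, 1 ≤ j → par j < j) : ℕ → Bool
  | 0 => false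
  | j + 1 => !(dep par h (par (j + 1)))
termination_by j => j
decreasing_by exact h (j + 1) (Nat.succ_le_succ (Nat.zero_le j))

lemma dep_succ (par : ℕ → ℕ) (h : ∀ j, 1 ≤ j → par j < j) (j : ℕ) (hj : 1 ≤ j) :
    dep par h j = !(dep par h (par j)) := by
  obtain ⟨i, rfl⟩ : ∃ i, j = i + 1 := ⟨j - 1, by omega⟩
  rw [dep]

lemma colorable (par : ℕ → ℕ) (n : ℕ) (h : ∀ j, 1 ≤ j → par j < j) :
    (pat par n).Colorable 2 := by
  have hc : ∀ {i j : Fin n}, (pat par n).Adj i j → dep par h i.1 ≠ dep par h j.1 := by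
    intro i j hij
    rcases hij with ⟨h1, h2⟩ | ⟨h1, h2⟩
    · rw [dep_succ par h j.1 (by omega), h2]
      simp
    · rw [dep_succ par h i.1 (by omega), h2]
      simp
  have C : (pat par n).Coloring Bool := SimpleGraph.Coloring.mk (fun i => dep par h i.1) hc
  have := C.colorable
  rwa [Fintype.card_bool] at this

/-- A large part of every set is stable. -/
lemma big_stable {V : Type} [Fintype V] {G : SimpleGraph V} {C : ℝ} {K m : ℕ} (hK : C ≤ K)
    (hG : Frac G C) {A : Finset V} (hA : K * m < A.card) :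
    ∃ I, I ⊆ A ∧ m < I.card ∧ Stab G I := by
  obtain ⟨I, hI, h1⟩ := hG (fun v => if v ∈ A then 1 else 0) (fun v => by
    split_ifs <;> norm_num)
  rw [Finset.sum_boole, Finset.sum_boole] at h1
  have h2 : (Finset.univ.filter fun v => v ∈ A) = A := by
    ext v
    simp
  have h3 : (I.filter fun v => v ∈ A) ⊆ A := fun v hv => (Finset.mem_filter.1 hv).2
  rw [h2] at h1
  refine ⟨I.filter fun v => v ∈ A, h3, ?_, ?_⟩
  · by_contra hcon
    have h4 : ((I.filter fun v => v ∈ A).card : ℝ) ≤ m := by exact_mod_cast not_lt.1 hcon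
    have h5 : (A.card : ℝ) ≤ K * m := by
      refine h1.trans ?_
      refine mul_le_mul hK h4 (by positivity) (by positivity)
    have h6 : A.card ≤ K * m := by exact_mod_cast h5
    omega
  · intro u hu v hv
    exact hI u (Finset.mem_filter.1 hu).1 v (Finset.mem_filter.1 hv).1

theorem stVCb : GIT.StVCb := by
  intro par n C hpar hC
  obtain ⟨K, hK⟩ := exists_nat_ge C
  obtain ⟨m, hm⟩ := exists_m K n
  refine ⟨K * m + 1, ?_⟩
  intro V _ G hG hemp U hU
  by_contra hcon
  push Not at hcon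
  have hS : Sh G U := by
    intro T hT
    obtain ⟨u, hu⟩ := hcon T hT
    refine ⟨u, fun s hs => ?_⟩
    rw [← hu]
    simp [nb, hs]
  obtain ⟨S0, hS0, hc0, hst0⟩ := big_stable hK hG (A := U) (m := m) (by omega)
  obtain ⟨S1, hS1, hc⟩ := Finset.exists_subset_card_eq (Nat.succ_le_of_lt hc0)
  have hsh1 := hS.mono (hS1.trans hS0)
  have hne : S1.Nonempty := Finset.card_pos.1 (by omega)
  obtain ⟨s0, hs0⟩ := hne
  have hcard : (S1.erase s0).card = m := by rw [Finset.card_erase_of_mem hs0, hc]; rfl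
  haveI : Nonempty V := ⟨s0⟩
  choose! v hv using hsh1
  let u : Finset V → V := fun A => v (insert s0 A)
  have hins : ∀ A, A ⊆ S1.erase s0 → insert s0 A ⊆ S1 := by
    intro A hA
    exact Finset.insert_subset hs0 (hA.trans (Finset.erase_subset _ _))
  have hu : ∀ A, A ⊆ S1.erase s0 → ∀ s ∈ S1.erase s0, G.Adj (u A) s ↔ s ∈ A := by
    intro A hA s hs
    have h := hv (insert s0 A) (hins A hA) s (Finset.mem_of_mem_erase hs)
    rw [h, Finset.mem_insert]
    exact ⟨fun h => h.resolve_left (Finset.ne_of_mem_erase hs), Or.inr⟩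
  have hu0 : ∀ A, A ⊆ S1.erase s0 → G.Adj (u A) s0 := fun A hA =>
    (hv (insert s0 A) (hins A hA) s0 hs0).2 (Finset.mem_insert_self _ _)
  -- the images are different
  have huinj : Set.InjOn u ((S1.erase s0).powerset : Set (Finset V)) := by
    intro A hA B hB hAB
    have hA' := Finset.mem_powerset.1 (Finset.mem_coe.1 hA)
    have hB' := Finset.mem_powerset.1 (Finset.mem_coe.1 hB)
    ext s
    constructor
    · intro hs
      have := (hu A hA' s (hA' hs)).2 hs
      rw [hAB] at this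
      exact (hu B hB' s (hA' hs)).1 this
    · intro hs
      have := (hu B hB' s (hB' hs)).2 hs
      rw [← hAB] at this
      exact (hu A hA' s (hB' hs)).1 this
  have hJ : ((S1.erase s0).powerset.image u).card = 2 ^ m := by
    rw [Finset.card_image_of_injOn huinj, Finset.card_powerset, hcard]
  obtain ⟨I2, hI2, hI2c, hI2s⟩ := big_stable hK hG (A := (S1.erase s0).powerset.image u)
    (m := (m + 1) ^ n) (by rw [hJ]; exact hm)
  set 𝒞 : Finset (Finset V) := {A ∈ (S1.erase s0).powerset | u A ∈ I2} with h𝒞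
  have hC : ∀ A ∈ 𝒞, A ⊆ S1.erase s0 := fun A hA =>
    Finset.mem_powerset.1 (Finset.mem_filter.1 hA).1
  have hCc : I2.card ≤ 𝒞.card := by
    refine (Finset.card_le_card ?_).trans (Finset.card_image_le (s := 𝒞) (f := u))
    intro x hx
    obtain ⟨A, hA, rfl⟩ := Finset.mem_image.1 (hI2 hx)
    exact Finset.mem_image.2 ⟨A, Finset.mem_filter.2 ⟨hA, hx⟩, rfl⟩
  have hex : ∃ T, 𝒞.Shatters T ∧ n ≤ T.card := by
    by_contra hno
    push Not at hno
    have h1 := sauer 𝒞 (S1.erase s0) hC n hno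
    have h2 := sum_choose_le (S1.erase s0).card n
    rw [hcard] at h1 h2
    omega
  obtain ⟨T0, hT0, hT0c⟩ := hex
  obtain ⟨T, hTT, hTc⟩ := Finset.exists_subset_card_eq hT0c
  have hTsh := hT0.mono_right hTT
  have hTS : T ⊆ S1.erase s0 := by
    obtain ⟨A, hA, hTA⟩ := hTsh.exists_superset
    exact hTA.trans (hC A hA)
  have hch : ∀ P, P ⊆ T → ∃ A ∈ 𝒞, T ∩ A = P := fun P hP => hTsh hP
  choose! a ha ha2 using hch
  have hTS1 : T ⊆ S1 := hTS.trans (Finset.erase_subset _ _)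
  have hst : ∀ u ∈ S1, ∀ v ∈ S1, ¬ G.Adj u v := fun u hu v hv => hst0 u (hS1 hu) v (hS1 hv)
  refine (not_isEmpty_iff.2 (embed (colorable par n hpar) T (by rw [hTc, Fintype.card_fin]) s0
    (fun u hu v hv => hst u (hTS1 hu) v (hTS1 hv))
    (fun u hu => hst u (hTS1 hu) s0 hs0) (fun P => u (a P)) ?_ ?_ ?_)) hemp
  · intro P hP
    exact hu0 _ (hC _ (ha P hP))
  · intro P hP s hs
    rw [hu _ (hC _ (ha P hP)) s (hTS hs)]
    constructor
    · intro h
      rw [← ha2 P hP]
      exact Finset.mem_inter.2 ⟨hs, h⟩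
    · intro h
      rw [← ha2 P hP] at h
      exact (Finset.mem_inter.1 h).2
  · intro P hP P' hP'
    exact hI2s _ (Finset.mem_filter.1 (ha P hP)).2 _ (Finset.mem_filter.1 (ha P' hP')).2

/-- The VC dimension is bounded. -/
theorem vc_thm (par : ℕ → ℕ) (n k : ℕ) (hp : ∀ j, 1 ≤ j → par j < j) :
    ∃ D : ℕ, ∀ (V : Type) [Fintype V] (G : SimpleGraph V), G.CliqueFree k →
      IsEmpty (pat par n ↪g G) → VC G D := by
  obtain ⟨C, hC, hF⟩ := GIT.stFrC par n k hp
  obtain ⟨D, h⟩ := stVCb par n C hp hC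
  exact ⟨D, fun V _ G hk he => h V G (hF V G hk he) he⟩

end Vc_

end Pool.Agent.Lib.GSI
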