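import Pool.Agent.Lib.GSI.Trees
import Pool.Agent.Lib.GSI.Sg
import Pool.Agent.Lib.GSI.Vc
import Pool.Agent.Lib.ILT.Main

/-!
# The integral Gyarfas-Sumner theorem: from `Kern` (one infinite graph) to finite graphs
-/

set_option autoImplicit false

namespace Pool.Agent.Lib.GSI

open Finset Classical
open Pool.Agent.Lib.FracGS (pat TAdj)
open Pool.Agent.Lib.GSR3 (Tree Stab)
open Pool.Agent.Lib.GR3 (Env nb Cl Sm)
open Sg_ (sg env sg_adj sg_fst sg_nbr mk_inj vc_sg law_sg)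

variable {W : ℕ → Type} {G : ∀ n, SimpleGraph (W n)}

/-- The full tree in the disjoint union lies in one component. -/
lemma tree_sg {h M : ℕ} {φ : List (Fin M) → Σ n, W n} (hT : Tree (sg G) h M φ) :
    ∃ (n : ℕ) (ψ : List (Fin M) → W n), Tree (G n) h M ψ := by
  obtain ⟨n, a, ha⟩ : ∃ (n : ℕ) (a : W n), φ [] = ⟨n, a⟩ := ⟨(φ []).1, (φ []).2, rfl⟩
  have key : ∀ w : List (Fin M), w.length ≤ h → ∃ b : W n, φ w = ⟨n, b⟩ := by
    intro w
    induction w with
    | nil => exact fun _ => ⟨a, ha⟩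
    | cons t w ih =>
      intro hw
      have hw' : w.length ≤ h := by
        rw [List.length_cons] at hw
        omega
      obtain ⟨b, hb⟩ := ih hw'
      have h1 : (sg G).Adj (φ w) (φ (t :: w)) := (hT.adj _ _ hw' hw).2 (Or.inr ⟨t, rfl⟩)
      rw [hb] at h1
      exact sg_nbr h1
  choose ψ hψ using key
  refine ⟨n, fun w => if hw : w.length ≤ h then ψ w hw else a, ?_, ?_⟩
  · intro u w hu hw he
    rw [dif_pos hu, dif_pos hw] at he
    refine hT.inj u w hu hw ?_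
    rw [hψ u hu, hψ w hw, he]
  · intro u w hu hw
    rw [dif_pos hu, dif_pos hw, ← hT.adj u w hu hw, hψ u hu, hψ w hw, sg_adj]

/-- Cliques in the disjoint union. -/
lemma cf_sg {k : ℕ} (h : ∀ n, (G n).CliqueFree k) : (sg G).CliqueFree k :=
  ILT.ClsAux.du_cliqueFree G h

/-- Stable sets of large weight in the disjoint union. -/
lemma frac_sg (hW : ∀ n, Finite (W n)) {F : ℝ}
    (h : ∀ n, ∀ w : W n → ℝ, (∀ v, 0 ≤ w v) → ∃ I : Finset (W n), Stab (G n) I ∧
      ∑ v ∈ (@Finset.univ (W n) (@Fintype.ofFinite _ (hW n))), w v ≤ F * ∑ v ∈ I, w v)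
    (A : Finset (Σ n, W n)) (w : (Σ n, W n) → ℝ) (hw : ∀ v, 0 ≤ w v) :
    ∃ I, I ⊆ A ∧ Stab (sg G) I ∧ ∑ v ∈ A, w v ≤ F * ∑ v ∈ I, w v := by
  have hft : ∀ n, Fintype (W n) := fun n => @Fintype.ofFinite _ (hW n)
  have h' := fun n => h n (fun a => if (⟨n, a⟩ : Σ n, W n) ∈ A then w ⟨n, a⟩ else 0)
    (fun a => by
      split_ifs
      · exact hw _
      · exact le_rfl)
  choose I hI hI2 using h'
  have hsum : ∀ f : (Σ n, W n) → ℝ, ∀ B : Finset (Σ n, W n), B ⊆ A → ∑ v ∈ B, f v =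
      ∑ n ∈ A.image Sigma.fst, ∑ a ∈ (@Finset.univ (W n) (@Fintype.ofFinite _ (hW n))),
        if (⟨n, a⟩ : Σ n, W n) ∈ B then f ⟨n, a⟩ else 0 := by
    intro f B hB
    rw [Finset.sum_sigma']
    rw [← Finset.sum_filter]
    refine Finset.sum_congr ?_ fun _ _ => rfl
    ext v
    simp only [Finset.mem_filter, Finset.mem_sigma, Finset.mem_image]
    constructor
    · intro hv
      exact ⟨⟨⟨v, hB hv, rfl⟩, @Finset.mem_univ _ (@Fintype.ofFinite _ (hW v.1)) _⟩, hv⟩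
    · exact fun hv => hv.2
  refine ⟨A.filter (fun v => v.2 ∈ I v.1), Finset.filter_subset _ _, ?_, ?_⟩
  · rintro ⟨n, a⟩ hu v hv hadj
    obtain ⟨b, rfl⟩ := sg_nbr hadj
    exact hI n a (Finset.mem_filter.1 hu).2 b (Finset.mem_filter.1 hv).2 (sg_adj.1 hadj)
  · rw [hsum w A subset_rfl, hsum w _ (Finset.filter_subset _ _), Finset.mul_sum]
    refine Finset.sum_le_sum fun n _ => ?_
    refine (hI2 n).trans (le_of_eq ?_)
    congr 1
    have h1 : I n ⊆ (@Finset.univ (W n) (@Fintype.ofFinite _ (hW n))) := fun _ _ =>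
      @Finset.mem_univ _ (@Fintype.ofFinite _ (hW n)) _
    rw [← Finset.sum_subset h1 (f := fun a => if (⟨n, a⟩ : Σ n, W n) ∈
      A.filter (fun v => v.2 ∈ I v.1) then w ⟨n, a⟩ else 0)]
    · refine Finset.sum_congr rfl fun a ha => ?_
      by_cases hA : (⟨n, a⟩ : Σ n, W n) ∈ A
      · rw [if_pos hA, if_pos (Finset.mem_filter.2 ⟨hA, ha⟩)]
      · rw [if_neg hA, if_neg (fun h => hA (Finset.mem_filter.1 h).1)]
    · intro a _ ha
      rw [if_neg]
      exact fun h => ha (Finset.mem_filter.1 h).2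

/-- The neighbourhoods in the disjoint union. -/
lemma nbc_sg (hW : ∀ n, Finite (W n)) {κ : ℕ}
    (h : ∀ n (a : W n), ((G n).induce {b | (G n).Adj a b}).Colorable κ) (v : Σ n, W n) :
    Cl (env G hW) {u | (env G hW).G.Adj v u} κ := by
  obtain ⟨n, a⟩ := v
  obtain ⟨c⟩ := h n a
  refine ⟨fun u => if hu : ∃ b, u = ⟨n, b⟩ ∧ (G n).Adj a b then
    (c ⟨hu.choose, hu.choose_spec.2⟩).1 else 0, ?_, ?_⟩
  · intro u hu
    have hu' : (sg G).Adj ⟨n, a⟩ u := hu
    obtain ⟨b, rfl⟩ := sg_nbr hu'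
    have h1 : ∃ b', (⟨n, b⟩ : Σ n, W n) = ⟨n, b'⟩ ∧ (G n).Adj a b' := ⟨b, rfl, sg_adj.1 hu'⟩
    beta_reduce
    rw [dif_pos h1]
    exact (c _).2
  · intro u hu v hv hadj
    have hu' : (sg G).Adj ⟨n, a⟩ u := hu
    have hv' : (sg G).Adj ⟨n, a⟩ v := hv
    obtain ⟨b, rfl⟩ := sg_nbr hu'
    obtain ⟨b', rfl⟩ := sg_nbr hv'
    have h1 : ∃ d, (⟨n, b⟩ : Σ n, W n) = ⟨n, d⟩ ∧ (G n).Adj a d := ⟨b, rfl, sg_adj.1 hu'⟩
    have h2 : ∃ d, (⟨n, b'⟩ : Σ n, W n) = ⟨n, d⟩ ∧ (G n).Adj a d := ⟨b', rfl, sg_adj.1 hv'⟩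
    beta_reduce
    rw [dif_pos h1, dif_pos h2]
    intro he
    have e1 : h1.choose = b := (mk_inj n h1.choose_spec.1).symm
    have e2 : h2.choose = b' := (mk_inj n h2.choose_spec.1).symm
    refine c.valid (v := ⟨h1.choose, h1.choose_spec.2⟩) (w := ⟨h2.choose, h2.choose_spec.2⟩) ?_
      (Fin.ext he)
    change (G n).Adj h1.choose h2.choose
    rw [e1, e2]
    exact sg_adj.1 hadj

/-- Neighbourhoods in graphs without large cliques. -/
lemma cf_nbhd {V : Type} {H : SimpleGraph V} {k : ℕ} (h : H.CliqueFree (k + 1)) (a : V) :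
    (H.induce {b | H.Adj a b}).CliqueFree k := by
  intro s hs
  rw [SimpleGraph.isNClique_iff] at hs
  have h1 : a ∉ s.map (Function.Embedding.subtype _) := by
    intro ha
    obtain ⟨b, -, hb⟩ := Finset.mem_map.1 ha
    have h2 : H.Adj a b.1 := b.2
    have h3 : b.1 = a := hb
    rw [h3] at h2
    exact h2.ne rfl
  refine h (insert a (s.map (Function.Embedding.subtype _))) ?_
  rw [SimpleGraph.isNClique_iff]
  constructor
  · rw [Finset.coe_insert, SimpleGraph.isClique_insert]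
    constructor
    · intro u hu v hv huv
      obtain ⟨b, hb, rfl⟩ := Finset.mem_map.1 (Finset.mem_coe.1 hu)
      obtain ⟨c, hc, rfl⟩ := Finset.mem_map.1 (Finset.mem_coe.1 hv)
      exact hs.1 hb hc (fun h => huv (by rw [h]))
    · intro b hb _
      obtain ⟨b, -, rfl⟩ := Finset.mem_map.1 (Finset.mem_coe.1 hb)
      exact b.2
  · rw [Finset.card_insert_of_notMem h1, Finset.card_map, hs.2]

/-- The finite theorem for fixed parameters from the theorem for one infinite graph. -/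
theorem core_aux (hI : StInf) (h M : ℕ) (h2 : 2 ≤ h) (he : Even h) (hM : 2 ≤ M) :
    ∀ k : ℕ, ∃ C : ℕ, ∀ (V : Type) [Finite V] (G : SimpleGraph V), G.CliqueFree k →
      (∀ φ : List (Fin M) → V, ¬ Tree G h M φ) → G.Colorable C := by
  intro k
  induction k with
  | zero => exact ⟨0, fun V _ G hG _ => absurd hG SimpleGraph.not_cliqueFree_zero⟩
  | succ k ih =>
    obtain ⟨κ, hκ⟩ := ih
    by_contra hcon
    push Not at hcon
    set P : (V : Type) → SimpleGraph V → Prop := fun V G =>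
      Finite V ∧ G.CliqueFree (k + 1) ∧ ∀ φ : List (Fin M) → V, ¬ Tree G h M φ with hP
    set n0 : ℕ := (M + 1) ^ (h + 1) with hn0
    have hpar : ∀ j, 1 ≤ j → (j - 1) / M < j := fun j hj =>
      lt_of_le_of_lt (Nat.div_le_self _ _) (by omega)
    have hHer : ILT.Her P := by
      refine ⟨fun V G h => h.1, ?_⟩
      rintro V V' G G' ⟨h1, h2, h3⟩ ⟨e⟩
      exact ⟨Finite.of_injective e e.injective, h2.comap ⟨e.toCopy⟩,
        fun φ hφ => h3 _ (Tree.map e hφ)⟩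
    have hPF : ∀ V G, P V G → G.CliqueFree (k + 1) ∧
        IsEmpty (pat (fun j => (j - 1) / M) n0 ↪g G) := by
      rintro V G ⟨h1, h2, h3⟩
      refine ⟨h2, ⟨fun e => ?_⟩⟩
      obtain ⟨φ, hφ⟩ := tree_of_pat le_rfl e
      exact h3 φ hφ
    have hUnb : ILT.Unb P := by
      intro n
      obtain ⟨V, hV, G, h1, h2, h3⟩ := hcon n
      exact ⟨V, G, ⟨hV, h1, h2⟩, h3⟩
    obtain ⟨C, hC⟩ := ILT.all (Fin n0) (pat (fun j => (j - 1) / M) n0)
      (GIT.FrCAux.acyclic n0 hpar) (k + 1) P hHer hPF hUnb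
    choose W G hPW hcol hlaw using hC
    have hW : ∀ n, Finite (W n) := fun n => (hPW n).1
    obtain ⟨D, hD⟩ := Vc_.vc_thm (fun j => (j - 1) / M) n0 (k + 1) hpar
    obtain ⟨F, hF1, hF⟩ := GIT.stFrC (fun j => (j - 1) / M) n0 (k + 1) hpar
    have hK : Kern (env G hW) h M (k + 1) κ (D + 2) F C := by
      refine ⟨cf_sg fun n => (hPW n).2.1, ?_, ?_, ?_, hF1, ?_, ?_⟩
      · intro φ hφ
        obtain ⟨n, ψ, hψ⟩ := tree_sg hφ
        exact (hPW n).2.2 ψ hψ
      · refine nbc_sg hW fun n a => ?_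
        have := hW n
        exact hκ _ _ (cf_nbhd (hPW n).2.1 a)
          fun φ hφ => (hPW n).2.2 _ (Tree.map (SimpleGraph.Embedding.induce _) hφ)
      · refine vc_sg hW fun n => ?_
        have : Fintype (W n) := @Fintype.ofFinite _ (hW n)
        exact hD (W n) (G n) (hPW n).2.1 (hPF _ _ (hPW n)).2
      · refine frac_sg hW fun n w hw => ?_
        have : Fintype (W n) := @Fintype.ofFinite _ (hW n)
        exact @hF (W n) (@Fintype.ofFinite _ (hW n)) (G n) (hPW n).2.1 (hPF _ _ (hPW n)).2 w hw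
      · exact fun m S => law_sg hW (fun n => hlaw n m) S
    obtain ⟨N, f, hf1, hf2⟩ := hI h M h2 he hM _ _ _ _ _ _ _ hK
    refine hcol N ⟨SimpleGraph.Coloring.mk (fun a => ⟨f ⟨N, a⟩, hf1 _ (Set.mem_univ _)⟩) ?_⟩
    intro a b hab h
    exact hf2 ⟨N, a⟩ (Set.mem_univ _) ⟨N, b⟩ (Set.mem_univ _) (sg_adj.2 hab)
      (congrArg Fin.val h)

/-- The finite theorem from the theorem for one infinite graph. -/
theorem core_of_inf (hI : StInf) : Core := by
  intro h M k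
  obtain ⟨C, hC⟩ := core_aux hI (2 * (h + 1)) (M + 2) (by omega) (even_two_mul _) (by omega) k
  refine ⟨C, fun V _ G hG hT => hC V G hG fun φ hφ => ?_⟩
  exact hT _ (Tree.mono (by omega) (by omega) hφ)

end Pool.Agent.Lib.GSI
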