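import Pool.Agent.Lib.GSI.Final
import Pool.Agent.Lib.GSI.KBridge
import Pool.Agent.Lib.TCH.S2

/-!
# The integral Gyarfas-Sumner theorem: from the chain theorem and the reduction to the statement

`Bg E` are the sets which are not finitely colourable.  `StRed` is the interface of the reduction:
in a kernel situation whose vertex set is not finitely colourable some big set `W0` satisfies
`TCH.Good`: every big subset of `W0` carries levels of every quality.  `TCH.StChain` (the chain
theorem) excludes this, so `StInf` holds, and the frozen statement follows.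
-/

set_option autoImplicit false

namespace Pool.Agent.Lib.GSI

open Finset Classical
open Pool.Agent.Lib.GSR3 (Tree Stab)
open Pool.Agent.Lib.GR3 (Env nb Cl Sm)

/-- The big sets: not finitely colourable. -/
def Bg {V : Type} (E : Env V) (A : Set V) : Prop := ¬ Sm E A

lemma sm_empty {V : Type} (E : Env V) : Sm E (∅ : Set V) :=
  ⟨0, fun _ => 0, fun _ h => absurd h (Set.notMem_empty _), fun _ h => absurd h (Set.notMem_empty _)⟩

/-- The small sets form an ideal. -/
lemma ide_bg {V : Type} (E : Env V) : TCH.Ide (Bg E) := by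
  refine ⟨fun h => h (sm_empty E), fun A B hAB hA hB => hA (hB.mono hAB), fun A B h => ?_⟩
  by_contra hcon
  rw [not_or] at hcon
  unfold Bg at hcon h
  rw [not_not, not_not] at hcon
  exact h (GR3.sm_union hcon.1 hcon.2)

/-- Neighbourhoods are finite. -/
lemma adj_finite {V : Type} (E : Env V) (v : V) : {u | E.G.Adj v u}.Finite := by
  refine (E.fib (E.c v)).finite_toSet.subset fun u hu => ?_
  rw [Finset.mem_coe, E.mem_fib]
  exact (E.adj_c v u hu).symm

/-- The reduction: a kernel situation which is not finitely colourable is good. -/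
def StRed : Prop :=
  ∀ (h M : ℕ), 2 ≤ h → Even h → 2 ≤ M → ∀ (V : Type) (E : Env V) (k κ D : ℕ) (F : ℝ)
    (L : ℕ → ℕ), Kern E h M k κ D F L → Bg E Set.univ →
      ∃ (m : ℕ) (W0 : Set V), Bg E W0 ∧ TCH.Good E.G (Bg E) m (fun _ _ => True) W0

/-- The theorem for one infinite graph, from the chain theorem and the reduction. -/
theorem inf_of (hCh : TCH.StChain) (hR : StRed) : StInf := by
  intro h M hh he hM V E k κ D F L hK
  by_contra hcon
  obtain ⟨m, W0, hW0, hG⟩ := hR h M hh he hM V E k κ D F L hK hcon
  exact hCh V E.G (Bg E) m k h M D (ide_bg E) (adj_finite E) hK.cf hK.nt hK.vc W0 hW0 hG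

/-- The frozen statement, from the chain theorem and the reduction. -/
theorem main_of (hCh : TCH.StChain) (hR : StRed) :
    ∀ (n : ℕ) (F : SimpleGraph (Fin n)),
      (∃ f : ℕ → ℕ, ∀ (V : Type) [Fintype V] (G : SimpleGraph V),
          IsEmpty (SimpleGraph.Embedding F G) →
            ∀ k : ℕ, G.CliqueFree (k + 1) → G.chromaticNumber ≤ (f k : ℕ∞))
        ↔ F.IsAcyclic :=
  main_of_core (core_of_inf (inf_of hCh hR))

/-- The reduction in the form in which it is proved: if the big set `W1` has no big levels of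
quality `R + 1`, there is a contradiction. -/
def StRedC : Prop :=
  ∀ (h M : ℕ), 2 ≤ h → Even h → 2 ≤ M → ∀ (k κ D : ℕ) (F : ℝ) (L : ℕ → ℕ), ∃ m : ℕ,
    ∀ (V : Type) (E : Env V), Kern E h M k κ D F L → ∀ (W1 : Set V) (R : ℕ),
      (∀ D1 : TCH.Lv V, TCH.OK E.G m (fun _ _ => True) (R + 1) W1 D1 → Sm E D1.dom) → Sm E W1

lemma red_of (h : StRedC) : StRed := by
  intro h1 M hh he hM V E k κ D F L hK hB
  obtain ⟨m, hm⟩ := h h1 M hh he hM k κ D F L
  refine ⟨m, Set.univ, hB, fun W1 _ hW1 R => ?_⟩
  by_contra hcon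
  push Not at hcon
  refine hW1 (hm V E hK W1 R fun D1 h1 => ?_)
  by_contra hD
  exact hcon D1 h1 hD

end Pool.Agent.Lib.GSI
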