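import Pool.Agent.Lib.GR3.Basic
import Pool.Agent.Lib.GSR3.Defs

/-!
# The integral Gyarfas-Sumner theorem: the kernel situation

`E : GR3.Env V` is one infinite graph with finite fibres (the disjoint union of a sequence of finite
graphs), `GR3.Cl E A n`: the graph induced on `A` is `n`-colourable, `GR3.Sm E A`: `A` is finitely
colourable, `GR3.nb E S v`: the neighbours of `v` in `S` (a finset), `GSR3.Tree G h M φ`: `φ` is an
induced copy of the `M`-ary tree of depth `h` (words of length at most `h` in the alphabet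
`Fin M`).  `Kern` collects everything that may be used: `Core` (the finite theorem for the trees
`Tree h M`) follows from `StInf` (the theorem for one infinite graph) by `Bridge.lean`, and the
frozen statement S09553 follows from `Core` by `Final.lean`.
-/

set_option autoImplicit false

namespace Pool.Agent.Lib.GSI

open Finset Classical
open Pool.Agent.Lib.FracGS (pat TAdj)
open Pool.Agent.Lib.GSR3 (Tree Stab)
open Pool.Agent.Lib.GR3 (Env nb Cl Sm)

/-- The kernel situation: cliques have fewer than `k` vertices, no induced `M`-ary tree of depth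
`h`, neighbourhoods are `κ`-colourable, bounded VC dimension, the fractional chromatic number of
every finite set is at most `F`, and the zero-infinity law. -/
structure Kern {V : Type} (E : Env V) (h M k κ D : ℕ) (F : ℝ) (L : ℕ → ℕ) : Prop where
  cf : E.G.CliqueFree k
  nt : ∀ φ : List (Fin M) → V, ¬ Tree E.G h M φ
  nbc : ∀ v, Cl E {u | E.G.Adj v u} κ
  vc : GIT.VC E.G D
  F1 : 1 ≤ F
  frac : ∀ (A : Finset V) (w : V → ℝ), (∀ v, 0 ≤ w v) →
    ∃ I, I ⊆ A ∧ Stab E.G I ∧ ∑ v ∈ A, w v ≤ F * ∑ v ∈ I, w v
  law : ∀ (m : ℕ) (S : Set V),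
    Cl E {v | v ∉ S ∧ 1 ≤ (nb E S v).card ∧ (nb E S v).card ≤ m} (L m)

/-- The theorem for one infinite graph. -/
def StInf : Prop :=
  ∀ (h M : ℕ), 2 ≤ h → Even h → 2 ≤ M → ∀ (V : Type) (E : Env V) (k κ D : ℕ) (F : ℝ)
    (L : ℕ → ℕ), Kern E h M k κ D F L → Sm E Set.univ

/-- The finite theorem for the full trees. -/
def Core : Prop :=
  ∀ h M k : ℕ, ∃ C : ℕ, ∀ (V : Type) [Finite V] (G : SimpleGraph V), G.CliqueFree k →
    (∀ φ : List (Fin M) → V, ¬ Tree G h M φ) → G.Colorable C

/-- The finite theorem for all forests. -/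
def Forests : Prop :=
  ∀ (W : Type) [Fintype W] (F : SimpleGraph W), F.IsAcyclic → ∀ k : ℕ, ∃ C : ℕ,
    ∀ (V : Type) [Finite V] (G : SimpleGraph V), G.CliqueFree k → IsEmpty (F ↪g G) →
      G.Colorable C

end Pool.Agent.Lib.GSI
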