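import Mathlib

/-!
# Graphs of large girth and large chromatic number, and the easy direction of S09553

`GSI.exists_girth_chrom`: for all `g` and `c` there is a finite graph all of whose cycles are longer
than `g` and which is not `c`-colourable (Erdos; counting proof at constant average degree).
`GSI.erdos_dir`: if the graphs without an induced copy of `F` are chi-bounded then `F` is acyclic,
exactly in the form of frozen statement S09553.
-/

set_option autoImplicit false

open Finset

namespace GSI

/-- Counting functions with prescribed range on a set of coordinates. -/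
theorem count_pi {E : Type} [Fintype E] [DecidableEq E] (r : ℕ) (A : Finset (Fin (r + 1)))
    (T : Finset E) :
    (univ.filter fun ω : E → Fin (r + 1) => ∀ e ∈ T, ω e ∈ A).card * (r + 1) ^ T.card
      = A.card ^ T.card * (r + 1) ^ (Fintype.card E) := by
  have h1 : (univ.filter fun ω : E → Fin (r + 1) => ∀ e ∈ T, ω e ∈ A)
      = Fintype.piFinset fun e => if e ∈ T then A else univ := by
    ext ω
    simp only [mem_filter, mem_univ, true_and, Fintype.mem_piFinset]
    constructor
    · intro h e
      by_cases he : e ∈ T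
      · simp [he, h e he]
      · simp [he]
    · intro h e he
      have := h e
      simpa [he] using this
  rw [h1, Fintype.card_piFinset]
  have h2 : ∀ e : E, (if e ∈ T then A else (univ : Finset (Fin (r + 1)))).card
      = if e ∈ T then A.card else r + 1 := by
    intro e
    by_cases he : e ∈ T <;> simp [he]
  simp only [h2]
  rw [Finset.prod_ite]
  simp only [Finset.prod_const]
  have h3 : (univ.filter fun e => e ∈ T) = T := by ext; simp
  have h4 : (univ.filter fun e => e ∉ T).card + T.card = Fintype.card E := by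
    have : (univ.filter fun e => e ∉ T) = Tᶜ := by ext; simp
    rw [this, Finset.card_compl]
    have := Finset.card_le_univ T
    omega
  rw [h3, mul_assoc, ← pow_add, h4]

theorem bern (r : ℕ) (m : ℕ) : r ^ (m + 1) + (m + 1) * r ^ m ≤ (r + 1) ^ (m + 1) := by
  induction m with
  | zero => simp
  | succ m ih =>
    calc r ^ (m + 1 + 1) + (m + 1 + 1) * r ^ (m + 1)
        ≤ (r ^ (m + 1) + (m + 1) * r ^ m) * (r + 1) := by
          have : r ^ (m + 1) = r ^ m * r := pow_succ _ _
          have h2 : r ^ (m + 1 + 1) = r ^ m * r * r := by rw [pow_succ, pow_succ]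
          rw [h2, this]
          nlinarith [Nat.zero_le (r ^ m), Nat.zero_le (m * r ^ m)]
      _ ≤ (r + 1) ^ (m + 1) * (r + 1) := Nat.mul_le_mul_right _ ih
      _ = (r + 1) ^ (m + 1 + 1) := (pow_succ _ _).symm

theorem two_pow (r : ℕ) : 2 * r ^ (r + 1) ≤ (r + 1) ^ (r + 1) := by
  have h := bern r r
  have h2 : r ^ (r + 1) ≤ (r + 1) * r ^ r := by
    rw [pow_succ, mul_comm]
    exact Nat.mul_le_mul_right _ (Nat.le_succ r)
  omega

theorem two_pow_mul (r n M : ℕ) (hM : n * (r + 1) ≤ M) : 2 ^ n * r ^ M ≤ (r + 1) ^ M := by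
  obtain ⟨t, rfl⟩ := Nat.exists_eq_add_of_le hM
  have h1 : 2 ^ n * r ^ (n * (r + 1)) ≤ (r + 1) ^ (n * (r + 1)) := by
    calc 2 ^ n * r ^ (n * (r + 1)) = (2 * r ^ (r + 1)) ^ n := by
          rw [mul_pow, ← pow_mul, mul_comm (r + 1) n]
      _ ≤ ((r + 1) ^ (r + 1)) ^ n := Nat.pow_le_pow_left (two_pow r) n
      _ = (r + 1) ^ (n * (r + 1)) := by rw [← pow_mul, mul_comm (r + 1) n]
  rw [pow_add, pow_add, ← mul_assoc]
  exact Nat.mul_le_mul h1 (Nat.pow_le_pow_left (Nat.le_succ r) t)

/-- The graph of a colouring of the pairs: the pairs of colour `0`. -/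
def Gr {N r : ℕ} (ω : Sym2 (Fin N) → Fin (r + 1)) : SimpleGraph (Fin N) :=
  SimpleGraph.fromEdgeSet {e | ω e = 0}

/-- the number of configurations `(A, B)` present in `ω`: `B` a set of `|A|` pairs inside `A`, all of
colour `0`. -/
def X {N r : ℕ} (g : ℕ) (ω : Sym2 (Fin N) → Fin (r + 1)) : ℕ :=
  ∑ A ∈ (univ : Finset (Finset (Fin N))).filter (fun A => A.card ≤ g),
    ∑ B ∈ A.sym2.powersetCard A.card, if ∀ e ∈ B, ω e = 0 then 1 else 0

/-- the constant bounding the expectation of `X` -/
def C1 (g D : ℕ) : ℕ := ∑ k ∈ range (g + 1), D ^ k * 2 ^ ((k + 1).choose 2)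

theorem sum_X (g D r N : ℕ) (hN : N = D * (r + 1)) :
    ∑ ω : Sym2 (Fin N) → Fin (r + 1), X g ω ≤
      C1 g D * (r + 1) ^ (Fintype.card (Sym2 (Fin N))) := by
  classical
  set Q := (r + 1) ^ (Fintype.card (Sym2 (Fin N))) with hQ
  have hB : ∀ B : Finset (Sym2 (Fin N)),
      (∑ ω : Sym2 (Fin N) → Fin (r + 1), if ∀ e ∈ B, ω e = 0 then 1 else 0) * (r + 1) ^ B.card
        = Q := by
    intro B
    have h := count_pi r ({0} : Finset (Fin (r + 1))) B
    simp only [mem_singleton, card_singleton, one_pow, one_mul] at h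
    rw [hQ, ← h, Finset.card_filter]
  -- the weight of one set `A`
  have hA : ∀ A : Finset (Fin N),
      (∑ B ∈ A.sym2.powersetCard A.card,
        ∑ ω : Sym2 (Fin N) → Fin (r + 1), if ∀ e ∈ B, ω e = 0 then 1 else 0) * (r + 1) ^ A.card
        ≤ 2 ^ ((A.card + 1).choose 2) * Q := by
    intro A
    rw [Finset.sum_mul]
    calc ∑ B ∈ A.sym2.powersetCard A.card,
          (∑ ω : Sym2 (Fin N) → Fin (r + 1), if ∀ e ∈ B, ω e = 0 then 1 else 0)
            * (r + 1) ^ A.card
        = ∑ B ∈ A.sym2.powersetCard A.card, Q := by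
          apply Finset.sum_congr rfl
          intro B hBm
          rw [← (mem_powersetCard.1 hBm).2]
          exact hB B
      _ = (A.sym2.powersetCard A.card).card * Q := by rw [sum_const, smul_eq_mul]
      _ ≤ 2 ^ ((A.card + 1).choose 2) * Q := by
          apply Nat.mul_le_mul_right
          rw [← Finset.card_sym2, ← Finset.card_powerset]
          exact card_le_card fun B hB => mem_powerset.2 (mem_powersetCard.1 hB).1
  calc ∑ ω : Sym2 (Fin N) → Fin (r + 1), X g ω
      = ∑ A ∈ (univ : Finset (Finset (Fin N))).filter (fun A => A.card ≤ g),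
          ∑ B ∈ A.sym2.powersetCard A.card,
            ∑ ω : Sym2 (Fin N) → Fin (r + 1), if ∀ e ∈ B, ω e = 0 then 1 else 0 := by
        simp only [X]
        rw [Finset.sum_comm]
        apply Finset.sum_congr rfl
        intro A _
        rw [Finset.sum_comm]
    _ = ∑ k ∈ range (g + 1), ∑ A ∈ (univ : Finset (Fin N)).powersetCard k,
          ∑ B ∈ A.sym2.powersetCard A.card,
            ∑ ω : Sym2 (Fin N) → Fin (r + 1), if ∀ e ∈ B, ω e = 0 then 1 else 0 := by
        rw [← Finset.sum_fiberwise_of_maps_to (s := (univ : Finset (Finset (Fin N))).filter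
          (fun A => A.card ≤ g)) (t := range (g + 1)) (g := fun A => A.card)
          (fun A hA => by
            simp only [mem_filter, mem_univ, true_and] at hA
            simp only [mem_range]
            omega)]
        apply Finset.sum_congr rfl
        intro k hk
        apply Finset.sum_congr _ (fun _ _ => rfl)
        ext A
        simp only [mem_filter, mem_univ, true_and, mem_powersetCard, subset_univ, mem_range] at hk ⊢
        constructor
        · rintro ⟨_, h⟩; exact h
        · rintro h; exact ⟨by omega, h⟩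
    _ ≤ ∑ k ∈ range (g + 1), D ^ k * 2 ^ ((k + 1).choose 2) * Q := by
        apply Finset.sum_le_sum
        intro k _
        have hpos : 0 < (r + 1) ^ k := Nat.pow_pos (Nat.succ_pos r)
        apply Nat.le_of_mul_le_mul_right _ hpos
        rw [Finset.sum_mul]
        calc ∑ A ∈ (univ : Finset (Fin N)).powersetCard k,
              (∑ B ∈ A.sym2.powersetCard A.card,
                ∑ ω : Sym2 (Fin N) → Fin (r + 1), if ∀ e ∈ B, ω e = 0 then 1 else 0)
                * (r + 1) ^ k
            ≤ ∑ A ∈ (univ : Finset (Fin N)).powersetCard k, 2 ^ ((k + 1).choose 2) * Q := by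
              apply Finset.sum_le_sum
              intro A hAm
              have hc := (mem_powersetCard.1 hAm).2
              have := hA A
              rw [hc] at this
              rw [hc]
              exact this
          _ = (N.choose k) * (2 ^ ((k + 1).choose 2) * Q) := by
              rw [sum_const, smul_eq_mul, card_powersetCard, card_univ, Fintype.card_fin]
          _ ≤ (D * (r + 1)) ^ k * (2 ^ ((k + 1).choose 2) * Q) := by
              apply Nat.mul_le_mul_right
              rw [← hN]
              exact Nat.choose_le_pow N k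
          _ = D ^ k * 2 ^ ((k + 1).choose 2) * Q * (r + 1) ^ k := by
              rw [mul_pow]; ring
    _ = C1 g D * Q := by rw [C1, Finset.sum_mul]

/-- `ω` has an independent set of size `s` -/
def HasInd {N r : ℕ} (s : ℕ) (ω : Sym2 (Fin N) → Fin (r + 1)) : Prop :=
  ∃ S : Finset (Fin N), S.card = s ∧ ∀ e ∈ S.offDiag.image (Function.uncurry Sym2.mk), ω e ≠ 0

theorem card_hasInd (r N s : ℕ) (hs : (N + 2) * (r + 1) ≤ s.choose 2) :
    by classical exact
    4 * (univ.filter fun ω : Sym2 (Fin N) → Fin (r + 1) => HasInd s ω).card ≤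
      (r + 1) ^ (Fintype.card (Sym2 (Fin N))) := by
  classical
  set Q := (r + 1) ^ (Fintype.card (Sym2 (Fin N))) with hQ
  have hS : ∀ S ∈ (univ : Finset (Fin N)).powersetCard s,
      (univ.filter fun ω : Sym2 (Fin N) → Fin (r + 1) =>
        ∀ e ∈ S.offDiag.image (Function.uncurry Sym2.mk), ω e ≠ 0).card * (r + 1) ^ (s.choose 2)
        = r ^ (s.choose 2) * Q := by
    intro S hSm
    have hc := (mem_powersetCard.1 hSm).2
    have h := count_pi r (univ.erase (0 : Fin (r + 1))) (S.offDiag.image (Function.uncurry Sym2.mk))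
    rw [Sym2.card_image_offDiag, hc] at h
    simp only [mem_erase, mem_univ, and_true, card_erase_of_mem, card_univ, Fintype.card_fin,
      Nat.add_sub_cancel] at h
    exact h
  have hsub : (univ.filter fun ω : Sym2 (Fin N) → Fin (r + 1) => HasInd s ω) ⊆
      ((univ : Finset (Fin N)).powersetCard s).biUnion fun S =>
        univ.filter fun ω : Sym2 (Fin N) → Fin (r + 1) =>
          ∀ e ∈ S.offDiag.image (Function.uncurry Sym2.mk), ω e ≠ 0 := by
    intro ω hω
    obtain ⟨S, h1, h2⟩ := (mem_filter.1 hω).2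
    rw [mem_biUnion]
    exact ⟨S, mem_powersetCard.2 ⟨subset_univ _, h1⟩, mem_filter.2 ⟨mem_univ _, h2⟩⟩
  have hpos : 0 < (r + 1) ^ (s.choose 2) := Nat.pow_pos (Nat.succ_pos r)
  apply Nat.le_of_mul_le_mul_right _ hpos
  calc 4 * (univ.filter fun ω : Sym2 (Fin N) → Fin (r + 1) => HasInd s ω).card
        * (r + 1) ^ (s.choose 2)
      ≤ 4 * (∑ S ∈ (univ : Finset (Fin N)).powersetCard s,
          (univ.filter fun ω : Sym2 (Fin N) → Fin (r + 1) =>
            ∀ e ∈ S.offDiag.image (Function.uncurry Sym2.mk), ω e ≠ 0).card) * (r + 1) ^ (s.choose 2) := by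
        apply Nat.mul_le_mul_right
        apply Nat.mul_le_mul_left
        exact (card_le_card hsub).trans card_biUnion_le
    _ = 4 * (∑ S ∈ (univ : Finset (Fin N)).powersetCard s, r ^ (s.choose 2) * Q) := by
        rw [mul_assoc, Finset.sum_mul]
        congr 1
        exact Finset.sum_congr rfl hS
    _ = 4 * ((N.choose s) * (r ^ (s.choose 2) * Q)) := by
        rw [sum_const, smul_eq_mul, card_powersetCard, card_univ, Fintype.card_fin]
    _ ≤ 4 * (2 ^ N * (r ^ (s.choose 2) * Q)) := by
        apply Nat.mul_le_mul_left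
        apply Nat.mul_le_mul_right
        exact Nat.choose_le_two_pow N s
    _ = (2 ^ (N + 2) * r ^ (s.choose 2)) * Q := by rw [pow_add]; ring
    _ ≤ (r + 1) ^ (s.choose 2) * Q := Nat.mul_le_mul_right _ (two_pow_mul _ _ _ hs)
    _ = Q * (r + 1) ^ (s.choose 2) := mul_comm _ _

theorem C1_pos (g D : ℕ) : 0 < C1 g D := by
  unfold C1
  rw [Finset.sum_range_succ']
  simp

theorem exists_good (g D r N s : ℕ) (hN : N = D * (r + 1))
    (hs : (N + 2) * (r + 1) ≤ s.choose 2) :
    ∃ ω : Sym2 (Fin N) → Fin (r + 1), ¬ HasInd s ω ∧ X g ω < 2 * C1 g D := by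
  classical
  by_contra hcon
  push Not at hcon
  have h1 := sum_X g D r N hN
  have h2 := card_hasInd r N s hs
  set Q := (r + 1) ^ (Fintype.card (Sym2 (Fin N))) with hQ
  have hQpos : 0 < Q := Nat.pow_pos (Nat.succ_pos r)
  have hcard : Fintype.card (Sym2 (Fin N) → Fin (r + 1)) = Q := by
    rw [Fintype.card_fun, Fintype.card_fin]
  have h3 : (univ.filter fun ω : Sym2 (Fin N) → Fin (r + 1) => ¬ HasInd s ω).card * (2 * C1 g D)
      ≤ ∑ ω : Sym2 (Fin N) → Fin (r + 1), X g ω := by
    calc (univ.filter fun ω : Sym2 (Fin N) → Fin (r + 1) => ¬ HasInd s ω).card * (2 * C1 g D)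
        = ∑ ω ∈ univ.filter (fun ω : Sym2 (Fin N) → Fin (r + 1) => ¬ HasInd s ω),
            (2 * C1 g D) := by
          rw [sum_const, smul_eq_mul]
      _ ≤ ∑ ω ∈ univ.filter (fun ω : Sym2 (Fin N) → Fin (r + 1) => ¬ HasInd s ω), X g ω :=
          Finset.sum_le_sum fun ω hω => hcon ω (mem_filter.1 hω).2
      _ ≤ ∑ ω : Sym2 (Fin N) → Fin (r + 1), X g ω :=
          Finset.sum_le_sum_of_subset (filter_subset _ _)
  have h4 : (univ.filter fun ω : Sym2 (Fin N) → Fin (r + 1) => HasInd s ω).card +
      (univ.filter fun ω : Sym2 (Fin N) → Fin (r + 1) => ¬ HasInd s ω).card = Q := by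
    rw [← hcard, ← card_univ]
    exact Finset.card_filter_add_card_filter_not _
  have hC := C1_pos g D
  set a := (univ.filter fun ω : Sym2 (Fin N) → Fin (r + 1) => HasInd s ω).card
  set b := (univ.filter fun ω : Sym2 (Fin N) → Fin (r + 1) => ¬ HasInd s ω).card
  have h5 : Q < 2 * b := by omega
  have h6 : b * (2 * C1 g D) ≤ C1 g D * Q := h3.trans h1
  have h7 : C1 g D * (2 * b) ≤ C1 g D * Q := by
    calc C1 g D * (2 * b) = b * (2 * C1 g D) := by ring
      _ ≤ _ := h6
  have h8 := Nat.le_of_mul_le_mul_left h7 hC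
  omega

/-- the bad vertex sets of `ω` -/
theorem exists_del {N r : ℕ} (g : ℕ) (ω : Sym2 (Fin N) → Fin (r + 1)) :
    ∃ Z : Finset (Fin N), Z.card ≤ X g ω ∧
      ∀ A : Finset (Fin N), A.Nonempty → A.card ≤ g →
        (∃ B ⊆ A.sym2, B.card = A.card ∧ ∀ e ∈ B, ω e = 0) → ∃ z ∈ A, z ∈ Z := by
  classical
  set Bad : Finset (Finset (Fin N)) := univ.filter fun A =>
    A.card ≤ g ∧ A.Nonempty ∧ ∃ B ⊆ A.sym2, B.card = A.card ∧ ∀ e ∈ B, ω e = 0 with hBad
  have hpick : ∀ A : Finset (Fin N), ∃ z : Option (Fin N), A.Nonempty → ∃ y ∈ A, z = some y := by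
    intro A
    by_cases hA : A.Nonempty
    · obtain ⟨y, hy⟩ := hA
      exact ⟨some y, fun _ => ⟨y, hy, rfl⟩⟩
    · exact ⟨none, fun h => absurd h hA⟩
  choose pick hp using hpick
  refine ⟨Finset.eraseNone (Bad.image pick), ?_, ?_⟩
  · calc (Finset.eraseNone (Bad.image pick)).card ≤ (Bad.image pick).card := by
          rw [Finset.card_eraseNone_eq_card_erase]
          exact card_le_card (erase_subset _ _)
      _ ≤ Bad.card := card_image_le
      _ = ∑ A ∈ Bad, 1 := by simp
      _ ≤ ∑ A ∈ Bad, ∑ B ∈ A.sym2.powersetCard A.card, (if ∀ e ∈ B, ω e = 0 then 1 else 0) := by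
          apply Finset.sum_le_sum
          intro A hA
          obtain ⟨_, _, B, hB1, hB2, hB3⟩ := (mem_filter.1 hA).2
          calc 1 = (if ∀ e ∈ B, ω e = 0 then 1 else 0) := by rw [if_pos hB3]
            _ ≤ _ := Finset.single_le_sum
                (f := fun B : Finset (Sym2 (Fin N)) => if ∀ e ∈ B, ω e = 0 then 1 else 0)
                (fun _ _ => Nat.zero_le _)
                (mem_powersetCard.2 ⟨hB1, hB2⟩)
      _ ≤ X g ω := by
          unfold X
          apply Finset.sum_le_sum_of_subset
          intro A hA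
          exact mem_filter.2 ⟨mem_univ _, (mem_filter.1 hA).2.1⟩
  · intro A hne hcard hB
    obtain ⟨y, hy, hyz⟩ := hp A hne
    refine ⟨y, hy, ?_⟩
    rw [Finset.mem_eraseNone, ← hyz]
    exact mem_image_of_mem _ (mem_filter.2 ⟨mem_univ _, hcard, hne, hB⟩)

theorem cycle_bad {N r : ℕ} (ω : Sym2 (Fin N) → Fin (r + 1)) {v : Fin N}
    (p : (Gr ω).Walk v v) (hp : p.IsCycle) :
    p.support.toFinset.Nonempty ∧ p.support.toFinset.card = p.length ∧
      ∃ B ⊆ p.support.toFinset.sym2, B.card = p.support.toFinset.card ∧ ∀ e ∈ B, ω e = 0 := by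
  classical
  have hcard : p.support.toFinset.card = p.length := by
    have h1 : p.support.toFinset = p.support.tail.toFinset := by
      rw [p.support_eq_cons]
      ext x
      simp only [List.mem_toFinset, List.tail_cons, List.mem_cons]
      constructor
      · rintro (h | h)
        · rw [h]
          exact SimpleGraph.Walk.end_mem_tail_support hp.not_nil
        · exact h
      · exact fun h => Or.inr h
    rw [h1, List.toFinset_card_of_nodup hp.support_nodup, List.length_tail,
      SimpleGraph.Walk.length_support]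
    omega
  refine ⟨⟨v, by simp⟩, hcard, p.edges.toFinset, ?_, ?_, ?_⟩
  · intro e he
    rw [List.mem_toFinset] at he
    induction e using Sym2.ind with
    | _ x y =>
      rw [Finset.mk_mem_sym2_iff]
      exact ⟨List.mem_toFinset.2 (p.fst_mem_support_of_mem_edges he),
        List.mem_toFinset.2 (p.snd_mem_support_of_mem_edges he)⟩
  · rw [hcard, List.toFinset_card_of_nodup hp.edges_nodup, SimpleGraph.Walk.length_edges]
  · intro e he
    rw [List.mem_toFinset] at he
    have h1 := p.edges_subset_edgeSet he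
    simp only [Gr, SimpleGraph.edgeSet_fromEdgeSet] at h1
    exact h1.1

theorem exists_girth_chrom (g c : ℕ) : ∃ (V : Type) (_ : Fintype V) (G : SimpleGraph V),
    (∀ (v : V) (p : G.Walk v v), p.IsCycle → g < p.length) ∧ ¬ G.Colorable c := by
  classical
  suffices h : ∀ c : ℕ, 1 ≤ c → ∃ (V : Type) (_ : Fintype V) (G : SimpleGraph V),
      (∀ (v : V) (p : G.Walk v v), p.IsCycle → g < p.length) ∧ ¬ G.Colorable c by
    obtain ⟨V, i, G, h1, h2⟩ := h (c + 1) (by omega)
    exact ⟨V, i, G, h1, fun h => h2 (h.mono (Nat.le_succ c))⟩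
  intro c hc
  set D : ℕ := 2 * c * (4 * c + 5) with hD
  set r : ℕ := 4 * C1 g D with hr
  set s : ℕ := (4 * c + 5) * (r + 1) with hs
  set N : ℕ := 2 * c * s with hN
  have hND : N = D * (r + 1) := by rw [hN, hs, hD]; ring
  have hbig : (N + 2) * (r + 1) ≤ s.choose 2 := by
    rw [Nat.choose_two_right, Nat.le_div_iff_mul_le (by norm_num)]
    have h1 : (4 * c + 4) * (r + 1) ≤ s - 1 := by
      rw [hs]
      have : (4 * c + 5) * (r + 1) = (4 * c + 4) * (r + 1) + (r + 1) := by ring
      omega
    have hs1 : 1 ≤ s := by rw [hs]; nlinarith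
    calc (N + 2) * (r + 1) * 2 = (4 * c * s + 4) * (r + 1) := by rw [hN]; ring
      _ ≤ (4 * c * s + 4 * s) * (r + 1) := by
          apply Nat.mul_le_mul_right; omega
      _ = s * ((4 * c + 4) * (r + 1)) := by ring
      _ ≤ s * (s - 1) := Nat.mul_le_mul_left _ h1
  obtain ⟨ω, hind, hX⟩ := exists_good g D r N s hND hbig
  obtain ⟨Z, hZ, hdel⟩ := exists_del g ω
  set W : Set (Fin N) := {x | x ∉ Z} with hW
  refine ⟨W, inferInstance, (Gr ω).induce W, ?_, ?_⟩
  · intro v p hp
    by_contra hlen
    push Not at hlen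
    set p' := p.map (SimpleGraph.Embedding.induce (G := Gr ω) W).toHom with hp'
    have hcyc : p'.IsCycle :=
      (SimpleGraph.Walk.map_isCycle_iff_of_injective
        (SimpleGraph.Embedding.induce (G := Gr ω) W).injective).2 hp
    have hlen' : p'.length = p.length := SimpleGraph.Walk.length_map _ _
    obtain ⟨h1, h2, h3⟩ := cycle_bad ω p' hcyc
    obtain ⟨z, hz1, hz2⟩ := hdel _ h1 (by rw [h2, hlen']; exact hlen) h3
    rw [List.mem_toFinset, hp', SimpleGraph.Walk.support_map, List.mem_map] at hz1
    obtain ⟨w, _, hw⟩ := hz1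
    have : (w : Fin N) = z := hw
    exact w.2 (this ▸ hz2)
  · rintro ⟨C⟩
    have hs1 : 1 ≤ s := by rw [hs]; nlinarith
    have hZ2 : Z.card ≤ c * s := by
      have : 2 * C1 g D ≤ r := by omega
      have h2 : r ≤ s := by rw [hs]; nlinarith
      have h3 : s ≤ c * s := by nlinarith
      omega
    have hcardW : c * s ≤ Fintype.card W := by
      have h1 : Fintype.card W = N - Z.card := by
        have : Fintype.card W = (Zᶜ).card := by
          rw [← Fintype.card_coe]
          apply Fintype.card_congr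
          exact Equiv.subtypeEquivRight (fun x => by simp [hW])
        rw [this, card_compl, Fintype.card_fin]
      have h5 : N = c * s + c * s := by rw [hN]; ring
      omega
    haveI : Nonempty (Fin c) := ⟨⟨0, by omega⟩⟩
    obtain ⟨y, hy⟩ := Fintype.exists_le_card_fiber_of_mul_le_card (f := (C : W → Fin c)) (n := s)
      (by rw [Fintype.card_fin]; exact hcardW)
    obtain ⟨S, hS1, hS2⟩ := Finset.exists_subset_card_eq hy
    apply hind
    refine ⟨S.map (Function.Embedding.subtype _), by rw [card_map, hS2], ?_⟩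
    intro e he h0
    rw [mem_image] at he
    obtain ⟨⟨x, z⟩, hxz, rfl⟩ := he
    rw [mem_offDiag] at hxz
    obtain ⟨hx, hz, hne⟩ := hxz
    rw [mem_map] at hx hz
    obtain ⟨x', hx', rfl⟩ := hx
    obtain ⟨z', hz', rfl⟩ := hz
    have hadj : ((Gr ω).induce W).Adj x' z' := by
      show (Gr ω).Adj x' z'
      rw [Gr, SimpleGraph.fromEdgeSet_adj]
      exact ⟨h0, hne⟩
    have h1 := C.valid hadj
    have h2 := (mem_filter.1 (hS1 hx')).2
    have h3 := (mem_filter.1 (hS1 hz')).2
    exact h1 (h2.trans h3.symm)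

/-- The known direction of the frozen statement S09553. -/
theorem erdos_dir (n : ℕ) (F : SimpleGraph (Fin n))
    (h : ∃ f : ℕ → ℕ, ∀ (V : Type) [Fintype V] (G : SimpleGraph V),
          IsEmpty (SimpleGraph.Embedding F G) →
            ∀ k : ℕ, G.CliqueFree (k + 1) → G.chromaticNumber ≤ (f k : ℕ∞)) :
    F.IsAcyclic := by
  obtain ⟨f, hf⟩ := h
  intro v p hp
  obtain ⟨V, i, G, hG, hc⟩ := exists_girth_chrom p.length (f 2)
  apply hc
  rw [← SimpleGraph.chromaticNumber_le_iff_colorable]
  apply hf V G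
  · refine ⟨fun e => ?_⟩
    have h1 : (p.map e.toHom).IsCycle :=
      (SimpleGraph.Walk.map_isCycle_iff_of_injective e.injective).2 hp
    have h2 := hG _ _ h1
    rw [SimpleGraph.Walk.length_map] at h2
    exact lt_irrefl _ h2
  · intro s hs
    classical
    rw [SimpleGraph.is3Clique_iff] at hs
    obtain ⟨a, b, c, hab, hac, hbc, -⟩ := hs
    have h3 := hp.three_le_length
    have h4 := hG a (SimpleGraph.Walk.cons hab (SimpleGraph.Walk.cons hbc
      (SimpleGraph.Walk.cons hac.symm SimpleGraph.Walk.nil))) (by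
        rw [SimpleGraph.Walk.cons_isCycle_iff]
        constructor
        · simp [SimpleGraph.Walk.isPath_def, hbc.ne, hac.ne.symm, hab.ne.symm]
        · simp [hab.ne, hac.ne, hbc.ne, hab.ne.symm, hac.ne.symm])
    simp at h4
    omega

end GSI
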