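import Pool.Agent.Lib.GSI.Trees
import Pool.Agent.Lib.ILT.For
import Pool.Agent.Lib.GSI.Erdos

/-!
# The integral Gyarfas-Sumner theorem: the final assembly
-/

set_option autoImplicit false

namespace Pool.Agent.Lib.GSI

open Pool.Agent.Lib.FracGS (pat TAdj)
open Pool.Agent.Lib.GSR3 (Tree Stab)

/-- From the full trees to all forests. -/
theorem forests_of_core (hC : Core) : Forests := by
  intro W _ F hF k
  obtain ⟨q, n0, hq, ⟨e⟩⟩ := ILT.stFor W F hF
  obtain ⟨C, h⟩ := hC n0 q k
  refine ⟨C, fun V _ G hG hE => h V G hG fun φ hφ => ?_⟩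
  obtain ⟨f⟩ := pat_of_tree hq le_rfl hφ
  exact hE.false (e.trans f)

/-- The frozen statement from the theorem for all forests. -/
theorem main_of_forests (hF : Forests) :
    ∀ (n : ℕ) (F : SimpleGraph (Fin n)),
      (∃ f : ℕ → ℕ, ∀ (V : Type) [Fintype V] (G : SimpleGraph V),
          IsEmpty (SimpleGraph.Embedding F G) →
            ∀ k : ℕ, G.CliqueFree (k + 1) → G.chromaticNumber ≤ (f k : ℕ∞))
        ↔ F.IsAcyclic := by
  intro n F
  refine ⟨GSI.erdos_dir n F, fun hA => ?_⟩
  choose C hC using hF (Fin n) F hA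
  exact ⟨fun k => C (k + 1), fun V _ G hE k hk => (hC (k + 1) V G hk hE).chromaticNumber_le⟩

/-- The frozen statement from the finite theorem for the full trees. -/
theorem main_of_core (hC : Core) :
    ∀ (n : ℕ) (F : SimpleGraph (Fin n)),
      (∃ f : ℕ → ℕ, ∀ (V : Type) [Fintype V] (G : SimpleGraph V),
          IsEmpty (SimpleGraph.Embedding F G) →
            ∀ k : ℕ, G.CliqueFree (k + 1) → G.chromaticNumber ≤ (f k : ℕ∞))
        ↔ F.IsAcyclic :=
  main_of_forests (forests_of_core hC)

end Pool.Agent.Lib.GSI
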