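import Pool.Agent.Lib.GSI.Asm
import Pool.Agent.Lib.TCH.Unif

/-!
# The integral Gyarfas-Sumner theorem: the interface for the equilibrium part

`StRedU`: in a kernel situation, if all the self-linked incidences with `q` stages in the fibres
live on sets which are colourable with a bounded number of colours, then the whole graph is
finitely colourable.  With the compactness theorem `TCH.stUnif` this gives `StRed`.
-/

set_option autoImplicit false

namespace Pool.Agent.Lib.GSI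

open Finset Classical
open Pool.Agent.Lib.GSR3 (Tree Stab)
open Pool.Agent.Lib.GR3 (Env nb Cl Sm mem_nb)

/-- The interface for the equilibrium part. -/
def StRedU : Prop :=
  ∀ (h M : ℕ), 2 ≤ h → Even h → 2 ≤ M → ∀ (k κ D : ℕ) (F : ℝ) (L : ℕ → ℕ), ∃ m : ℕ,
    ∀ (V : Type) (E : Env V), Kern E h M k κ D F L → ∀ R : ℕ,
      (∀ (q : ℕ) (K ε : ℝ), 0 < K → 0 < ε → R + 1 ≤ q → ∃ C : ℕ,
        ∀ (Ω : Type) (n : ℕ) (A : Finset V) (As : ℕ → Finset V) (O : ℕ → Finset Ω)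
          (hub : ℕ → Ω → V) (Ow Nr : ℕ → V → Ω → Prop) (r : ℕ → V → ℝ) (w : ℕ → Ω → ℝ),
          TCH.FB E Set.univ n m q K ε A As O hub Ow Nr r w → Cl E {x | x ∈ A} C) →
        Sm E Set.univ

namespace Red_

/-- The environment induced on the set `W`. -/
noncomputable def rst {V : Type} (E : Env V) (W : Set V) : Env W where
  G := E.G.induce W
  c v := E.c v
  fib n := (E.fib n).subtype (fun v => v ∈ W)
  mem_fib n v := by rw [Finset.mem_subtype, E.mem_fib]
  adj_c u v h := E.adj_c u v h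

lemma nb_rst {V : Type} (E : Env V) (W : Set V) (S : Set W) (v : W) :
    (nb (rst E W) S v).card = (nb E (Subtype.val '' S) v.1).card := by
  rw [← Finset.card_map (Function.Embedding.subtype (fun v => v ∈ W))]
  congr 1
  ext a
  rw [Finset.mem_map, mem_nb]
  constructor
  · rintro ⟨b, hb, rfl⟩
    rw [mem_nb] at hb
    exact ⟨⟨b, hb.1, rfl⟩, hb.2⟩
  · rintro ⟨⟨b, hb, rfl⟩, ha⟩
    exact ⟨b, mem_nb.2 ⟨hb, ha⟩, rfl⟩

lemma cl_rst {V : Type} {E : Env V} {W : Set V} {S : Set W} {n : ℕ} :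
    Cl (rst E W) S n ↔ Cl E (Subtype.val '' S) n := by
  constructor
  · rintro ⟨f, h1, h2⟩
    refine ⟨fun v => if hv : v ∈ W then f ⟨v, hv⟩ else 0, ?_, ?_⟩
    · rintro _ ⟨a, ha, rfl⟩
      simp only [dif_pos a.2]
      exact h1 a ha
    · rintro _ ⟨a, ha, rfl⟩ _ ⟨b, hb, rfl⟩ hab
      simp only [dif_pos a.2, dif_pos b.2]
      exact h2 a ha b hb hab
  · rintro ⟨f, h1, h2⟩
    exact ⟨fun v => f v.1, fun v hv => h1 _ ⟨v, hv, rfl⟩,
      fun u hu v hv ha => h2 _ ⟨u, hu, rfl⟩ _ ⟨v, hv, rfl⟩ ha⟩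

lemma vc_rst {V : Type} {G : SimpleGraph V} {D : ℕ} (W : Set V) (h : GIT.VC G D) :
    GIT.VC (G.induce W) D := by
  intro U hU
  obtain ⟨T, hT, hT'⟩ := h (U.map (Function.Embedding.subtype (fun v => v ∈ W)))
    (by rwa [Finset.card_map])
  refine ⟨U.filter (fun a => a.1 ∈ T), Finset.filter_subset _ _, ?_⟩
  intro v hv
  refine hT' v.1 ?_
  ext b
  constructor
  · intro hb
    obtain ⟨hb1, hb2⟩ := Finset.mem_filter.1 hb
    obtain ⟨a, ha, rfl⟩ := Finset.mem_map.1 hb1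
    have h2 : a ∈ FracGS.nb (G.induce W) U v := Finset.mem_filter.2 ⟨ha, hb2⟩
    rw [hv] at h2
    exact (Finset.mem_filter.1 h2).2
  · intro hb
    obtain ⟨a, ha, rfl⟩ := Finset.mem_map.1 (hT hb)
    have h2 : a ∈ U.filter (fun a => a.1 ∈ T) := Finset.mem_filter.2 ⟨ha, hb⟩
    rw [← hv] at h2
    exact Finset.mem_filter.2 ⟨hT hb, (Finset.mem_filter.1 h2).2⟩

/-- The kernel situation passes to induced subgraphs. -/
theorem kern {V : Type} {E : Env V} {h M k κ D : ℕ} {F : ℝ} {L : ℕ → ℕ}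
    (hK : Kern E h M k κ D F L) (W : Set V) : Kern (rst E W) h M k κ D F L where
  cf := hK.cf.comap ⟨(SimpleGraph.Embedding.induce W).toCopy⟩
  nt φ hφ := hK.nt (fun w => (φ w).1)
    ⟨fun u w hu hw huw => hφ.inj u w hu hw (Subtype.ext huw),
      fun u w hu hw => hφ.adj u w hu hw⟩
  nbc v := by
    refine cl_rst.2 ((hK.nbc v.1).mono ?_ le_rfl)
    rintro _ ⟨a, ha, rfl⟩
    exact ha
  vc := vc_rst W hK.vc
  F1 := hK.F1
  frac A w hw := by
    obtain ⟨I, h1, h2, h3⟩ := hK.frac (A.map (Function.Embedding.subtype (fun v => v ∈ W)))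
      (fun v => if hv : v ∈ W then w ⟨v, hv⟩ else 0) (by
        intro v
        by_cases hv : v ∈ W
        · simp only [dif_pos hv]
          exact hw _
        · simp only [dif_neg hv]
          exact le_rfl)
    have hI : ∀ v ∈ I, ∃ a ∈ A, a.1 = v := by
      intro v hv
      obtain ⟨a, ha, hav⟩ := Finset.mem_map.1 (h1 hv)
      exact ⟨a, ha, hav⟩
    have hI2 : (I.subtype (fun v => v ∈ W)).map
        (Function.Embedding.subtype (fun v => v ∈ W)) = I := by
      ext v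
      rw [Finset.mem_map]
      constructor
      · rintro ⟨a, ha, rfl⟩
        exact Finset.mem_subtype.1 ha
      · intro hv
        obtain ⟨a, _, rfl⟩ := hI v hv
        exact ⟨a, Finset.mem_subtype.2 hv, rfl⟩
    refine ⟨I.subtype (fun v => v ∈ W), ?_, ?_, ?_⟩
    · intro a ha
      obtain ⟨b, hb, hab⟩ := hI a.1 (Finset.mem_subtype.1 ha)
      exact Subtype.ext hab ▸ hb
    · intro a ha b hb
      rw [Finset.mem_subtype] at ha hb
      exact h2 a ha b hb
    · rw [← hI2, Finset.sum_map, Finset.sum_map] at h3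
      have key : ∀ a : W, (if hv : (Function.Embedding.subtype (fun v => v ∈ W)) a ∈ W then
          w ⟨(Function.Embedding.subtype (fun v => v ∈ W)) a, hv⟩ else 0) = w a := fun a =>
        dif_pos a.2
      rw [Finset.sum_congr rfl fun a _ => key a, Finset.sum_congr rfl fun a _ => key a] at h3
      exact h3
  law N S := by
    refine cl_rst.2 ((hK.law N (Subtype.val '' S)).mono ?_ le_rfl)
    rintro _ ⟨a, ⟨h1, h2, h3⟩, rfl⟩
    rw [nb_rst] at h2 h3
    refine ⟨?_, h2, h3⟩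
    rintro ⟨b, hb, hab⟩
    exact h1 (Subtype.ext hab ▸ hb)

/-- Self-linked incidences pass from an induced subgraph to the graph. -/
theorem fb {V Ω : Type} {E : Env V} {W : Set V} {n m q : ℕ} {K ε : ℝ} {A : Finset W}
    {As : ℕ → Finset W} {O : ℕ → Finset Ω} {hub : ℕ → Ω → W} {Ow Nr : ℕ → W → Ω → Prop}
    {r : ℕ → W → ℝ} {w : ℕ → Ω → ℝ}
    (h : TCH.FB (rst E W) Set.univ n m q K ε A As O hub Ow Nr r w) :
    ∃ (Ow' Nr' : ℕ → V → Ω → Prop) (r' : ℕ → V → ℝ),
      TCH.FB E W n m q K ε (A.map (Function.Embedding.subtype (fun v => v ∈ W)))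
        (fun s => (As s).map (Function.Embedding.subtype (fun v => v ∈ W))) O
        (fun s o => (hub s o).1) Ow' Nr' r' w := by
  have hmem : ∀ (T : Finset W) (v : V),
      v ∈ T.map (Function.Embedding.subtype (fun v => v ∈ W)) ↔ ∃ a : W, a ∈ T ∧ a.1 = v := by
    intro T v
    rw [Finset.mem_map]
    rfl
  obtain ⟨Ow', hOw⟩ : ∃ Ow' : ℕ → V → Ω → Prop, ∀ s (a : W) o, Ow' s a.1 o ↔ Ow s a o :=
    ⟨fun s v o => ∃ hv : v ∈ W, Ow s ⟨v, hv⟩ o, fun s a o =>
      ⟨fun ⟨_, h⟩ => h, fun h => ⟨a.2, h⟩⟩⟩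
  obtain ⟨Nr', hNr⟩ : ∃ Nr' : ℕ → V → Ω → Prop, ∀ s (a : W) o, Nr' s a.1 o ↔ Nr s a o :=
    ⟨fun s v o => ∃ hv : v ∈ W, Nr s ⟨v, hv⟩ o, fun s a o =>
      ⟨fun ⟨_, h⟩ => h, fun h => ⟨a.2, h⟩⟩⟩
  obtain ⟨r', hr0, hr⟩ : ∃ r' : ℕ → V → ℝ, (∀ s v, (∀ a, 0 ≤ r s a) → 0 ≤ r' s v) ∧
      ∀ s (a : W), r' s a.1 = r s a := by
    refine ⟨fun s v => if hv : v ∈ W then r s ⟨v, hv⟩ else 0, fun s v h0 => ?_, fun s a =>
      dif_pos a.2⟩
    by_cases hx : v ∈ W
    · simp only [dif_pos hx]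
      exact h0 _
    · simp only [dif_neg hx]
      exact le_rfl
  refine ⟨Ow', Nr', r', ?_, ?_, ?_, ?_⟩
  · intro x hx
    obtain ⟨a, ha, rfl⟩ := (hmem A x).1 hx
    exact ⟨a.2, (h.mem _ ha).2⟩
  · intro s hs
    have h1 := h.stg s hs
    refine ⟨Finset.map_subset_map.2 h1.sub, fun x => hr0 s x h1.r0, h1.w0, ?_, ?_, ?_, ?_, ?_, ?_⟩
    · intro x hx
      obtain ⟨a, ha, rfl⟩ := (hmem _ x).1 hx
      refine le_of_eq_of_le (Finset.sum_congr (Finset.filter_congr fun o _ => ?_) fun _ _ => rfl)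
        (h1.wE _ ha)
      exact hOw s a o
    · intro o ho
      have h2 := h1.rE o ho
      rw [Finset.sum_filter] at h2 ⊢
      rw [Finset.sum_map]
      refine le_of_eq_of_le (Finset.sum_congr rfl fun a _ => ?_) h2
      change (if Ow' s a.1 o then r' s a.1 else 0) = _
      have h3 := hOw s a o
      rw [hr s a]
      by_cases h4 : Ow s a o
      · rw [if_pos h4, if_pos (h3.2 h4)]
      · rw [if_neg h4, if_neg (fun h => h4 (h3.1 h))]
    · intro x hx o ho hxo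
      obtain ⟨b, hb, rfl⟩ := (hmem _ x).1 hx
      have h2 := h1.kp _ hb o ho ((hOw s b o).1 hxo)
      refine h2.trans (le_of_eq ?_)
      unfold TCH.kap
      rw [Finset.sum_filter, Finset.sum_filter, Finset.sum_map]
      refine Finset.sum_congr rfl fun a _ => ?_
      change _ = if Ow' s a.1 o then r' s a.1 * ∑ o' ∈ O s with Ow' s b.1 o' ∧ Ow' s a.1 o', w s o'
        else 0
      have h3 := hOw s a o
      rw [hr s a]
      by_cases h4 : Ow s a o
      · rw [if_pos h4, if_pos (h3.2 h4)]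
        congr 1
        refine Finset.sum_congr (Finset.filter_congr fun o' _ => ?_) fun _ _ => rfl
        exact and_congr (hOw s b o').symm (hOw s a o').symm
      · rw [if_neg h4, if_neg (fun h => h4 (h3.1 h))]
    · intro x hx
      obtain ⟨a, ha, rfl⟩ := (hmem _ x).1 hx
      obtain ⟨o, ho, hxo⟩ := h1.ne _ ha
      exact ⟨o, ho, (hOw s a o).2 hxo⟩
    · intro x hx o ho hxo
      obtain ⟨a, ha, rfl⟩ := (hmem _ x).1 hx
      exact h1.adj _ ha o ho ((hOw s a o).1 hxo)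
    · intro x hx
      obtain ⟨a, ha, rfl⟩ := (hmem _ x).1 hx
      refine le_of_eq_of_le (Finset.sum_congr (Finset.filter_congr fun o _ => ?_) fun _ _ => rfl)
        (h1.nr _ ha)
      exact hNr s a o
  · intro s hs o ho
    exact ⟨(hub s o).2, (h.hb s hs o ho).2⟩
  · intro x hx t ht
    obtain ⟨a, ha, rfl⟩ := (hmem _ x).1 hx
    obtain ⟨b, hb, rfl⟩ := (hmem _ t).1 ht
    refine le_trans (Finset.card_le_card ?_) (h.conf _ ha _ hb)
    intro s hs
    rw [Finset.mem_filter] at hs ⊢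
    refine ⟨hs.1, fun hc => hs.2 ?_⟩
    rintro l hl ⟨o, ho, h1, h2⟩ o' ho' h3 hadj
    obtain ⟨c, hc', rfl⟩ := (hmem _ l).1 hl
    exact (hNr s b o').2 (hc c hc' ⟨o, ho, (hOw s a o).1 h1, (hOw s c o).1 h2⟩ o' ho'
      ((hOw s c o').1 h3) hadj)

end Red_

open Red_

/-- The reduction, from the equilibrium part. -/
theorem red_of_u (h : StRedU) : StRed := by
  intro h1 M hh he hM V E k κ D F L hK hB
  obtain ⟨m, hm⟩ := h h1 M hh he hM k κ D F L
  by_contra hcon
  push Not at hcon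
  obtain ⟨W0, R, -, hW0, hC⟩ := TCH.stUnif V E D m Set.univ hK.vc (hcon m Set.univ hB)
  refine hW0 ?_
  obtain ⟨N, hN⟩ := hm W0 (rst E W0) (kern hK W0) R fun q K ε hK' hε hq => by
    obtain ⟨C, hC'⟩ := hC q K ε hK' hε hq
    refine ⟨C, fun Ω n A As O hub Ow Nr r w hFB => ?_⟩
    obtain ⟨Ow', Nr', r', hFB'⟩ := fb hFB
    have h2 := hC' Ω n _ _ O _ _ _ _ w hFB'
    rw [cl_rst]
    refine h2.mono ?_ le_rfl
    rintro _ ⟨a, ha, rfl⟩
    exact Finset.mem_map.2 ⟨a, ha, rfl⟩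
  refine ⟨N, ?_⟩
  rw [cl_rst] at hN
  exact hN.mono (fun v hv => ⟨⟨v, hv⟩, trivial, rfl⟩) le_rfl

/-- The frozen statement, from the chain theorem and the equilibrium part. -/
theorem main_of_u (hCh : TCH.StChain) (hR : StRedU) :
    ∀ (n : ℕ) (F : SimpleGraph (Fin n)),
      (∃ f : ℕ → ℕ, ∀ (V : Type) [Fintype V] (G : SimpleGraph V),
          IsEmpty (SimpleGraph.Embedding F G) →
            ∀ k : ℕ, G.CliqueFree (k + 1) → G.chromaticNumber ≤ (f k : ℕ∞))
        ↔ F.IsAcyclic :=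
  main_of hCh (red_of_u hR)

end Pool.Agent.Lib.GSI
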