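import Pool.Agent.Lib.GSI.RedW
import Pool.Agent.Lib.TCW.XFin
import Pool.Agent.Lib.TCW.Main
import Pool.Agent.Lib.FGJ.UPool

/-!
# The integral Gyarfas-Sumner theorem: the interface for the game on finite graphs

`StFin`: the finite graphs without an induced tree, with locally bounded chromatic number and
bounded fractional chromatic number, in which the windows of the two kinds are colourable with
given numbers of colours (`Win`), are colourable with a bounded number of colours.  The game is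
played on one finite graph (a fibre); `StFin` implies `StRedW`, hence the frozen statement.
-/

set_option autoImplicit false

namespace Pool.Agent.Lib.GSI

open Finset Classical
open Pool.Agent.Lib.GSR3 (Tree Stab)
open Pool.Agent.Lib.GR3 (Env nb Cl Sm)
open Pool.Agent.Lib.TCW (ColG Cst RecB IncB NrB EqInc)

/-- The finite graphs of the game. -/
structure FinK {X : Type} [Fintype X] (G : SimpleGraph X) (h M κ : ℕ) (F : ℝ) : Prop where
  nt : ∀ φ : List (Fin M) → X, ¬ Tree G h M φ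
  nbc : ∀ v, ∃ f : X → Fin κ, ∀ u w, G.Adj v u → G.Adj v w → G.Adj u w → f u ≠ f w
  frac : FGF.Frac G F

/-- The data of the windows: `ηB m' q v0 K0 ε` and the number of colours `CB m' q v0 K0 ε k` of the
typed windows, `δE K0 ε` and the number of colours `CE K0 ε K1` of the untyped windows. -/
structure Wd where
  ηB : ℕ → ℕ → ℕ → ℝ → ℝ → ℝ
  ηB0 : ∀ m' q v0 K0 ε, 0 < ηB m' q v0 K0 ε
  CB : ℕ → ℕ → ℕ → ℝ → ℝ → Cst → ℕ
  δE : ℝ → ℝ → ℝ
  δE0 : ∀ K0 ε, 0 < δE K0 ε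
  CE : ℝ → ℝ → ℝ → ℕ

/-- The windows in `G` are colourable. -/
structure Win (D : Wd) (m R : ℕ) {X : Type} (G : SimpleGraph X) : Prop where
  b : ∀ m' ≤ m, ∀ (q v0 : ℕ) (K0 ε : ℝ), 0 < K0 → 0 < ε → R + 1 ≤ q → ∀ k : Cst, v0 ≤ k.w0 →
    k.l0 + 6 * k.w0 + 1 ≤ k.u → ∀ (Ω : Type) (As : ℕ → Finset X) (O : ℕ → Finset Ω)
      (hub : ℕ → Ω → X) (Ow : ℕ → X → Ω → Prop) (r : ℕ → X → ℝ) (w : ℕ → Ω → ℝ)
      (h : ℕ → X → ℝ) (H : ℕ → ℕ → Ω → ℤ),
      (∀ s < q, RecB G s v0 K0 k (As s) (O s) (hub s) (Ow s) (r s) (w s) h (H s)) →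
        ColG G {v | ∀ s < q,
          (∃ I : X → Ω → Prop, IncB ε (As s) (O s) (Ow s) (r s) (w s) I v) ∧
          NrB G m' s (D.ηB m' q v0 K0 ε) k (O s) (hub s) (w s) h (H s) v}
          (D.CB m' q v0 K0 ε k)
  e : ∀ K0 ε K1 : ℝ, 0 < K0 → 0 < ε → ∀ (g L : ℝ) (W : Finset X) (h r w : X → ℝ),
    (∀ x, 0 ≤ r x) → (∀ x, 0 ≤ w x) →
      ColG G {v | ∃ I : X → X → Prop, EqInc G K0 K1 ε (D.δE K0 ε) g L W h r w I v}
        (D.CE K0 ε K1)

/-- The interface for the game: `h` is the number of the bad stages in the windows. -/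
def StFin : Prop :=
  ∀ (h M κ : ℕ) (F : ℝ), 2 ≤ h → 2 ≤ M → 1 ≤ κ → 1 ≤ F → ∀ (R : ℕ) (D : Wd), ∃ b : ℕ,
    ∀ (X : Type) [Fintype X] (G : SimpleGraph X), FinK G h M κ F → Win D h R G →
      ColG G Set.univ b

namespace RedF_

/-- The data of the windows of one environment. -/
theorem wd {V : Type} (E : Env V) (D0 m R : ℕ) (hvc : GIT.VC E.G D0)
    (hno : ∀ D : TCW.Lv V, TCW.OK E.G m (fun _ _ => True) (R + 1) Set.univ D → Sm E D.dom) :
    ∃ D : Wd, ∀ (X : Type) (G : SimpleGraph X) (e : X ↪ V) (n : ℕ),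
      TCW.Emb E Set.univ n G e → Win D m R G := by
  have hB : ∀ (m' q v0 : ℕ) (K0 ε : ℝ), ∃ η : ℝ, 0 < η ∧ ∀ k : Cst, ∃ C : ℕ,
      (m' ≤ m → 0 < K0 → 0 < ε → R + 1 ≤ q → v0 ≤ k.w0 → k.l0 + 6 * k.w0 + 1 ≤ k.u →
        ∀ (X Ω : Type) (G' : SimpleGraph X) (e : X ↪ V) (n : ℕ), TCW.Emb E Set.univ n G' e →
          ∀ (As : ℕ → Finset X) (O : ℕ → Finset Ω) (hub : ℕ → Ω → X) (Ow : ℕ → X → Ω → Prop)
            (r : ℕ → X → ℝ) (w : ℕ → Ω → ℝ) (h : ℕ → X → ℝ) (H : ℕ → ℕ → Ω → ℤ),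
            (∀ s < q, RecB G' s v0 K0 k (As s) (O s) (hub s) (Ow s) (r s) (w s) h (H s)) →
              ColG G' {v | ∀ s < q,
                (∃ I : X → Ω → Prop, IncB ε (As s) (O s) (Ow s) (r s) (w s) I v) ∧
                NrB G' m' s η k (O s) (hub s) (w s) h (H s) v} C) := by
    intro m' q v0 K0 ε
    by_cases hc : m' ≤ m ∧ 0 < K0 ∧ 0 < ε ∧ R + 1 ≤ q
    · obtain ⟨h1, h2, h3, h4⟩ := hc
      obtain ⟨η, hη, hC⟩ := TCW.bX_fin E D0 m m' R Set.univ hvc h1 hno q v0 K0 ε h2 h3 h4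
      refine ⟨η, hη, fun k => ?_⟩
      by_cases hk : v0 ≤ k.w0 ∧ k.l0 + 6 * k.w0 + 1 ≤ k.u
      · obtain ⟨C, hC'⟩ := hC k hk.1 hk.2
        exact ⟨C, fun _ _ _ _ _ _ => hC'⟩
      · exact ⟨0, fun _ _ _ _ h5 h6 => absurd ⟨h5, h6⟩ hk⟩
    · exact ⟨1, one_pos, fun k => ⟨0, fun h1 h2 h3 h4 => absurd ⟨h1, h2, h3, h4⟩ hc⟩⟩
  have hE : ∀ K0 ε : ℝ, ∃ δ : ℝ, 0 < δ ∧ ∀ K1 : ℝ, ∃ C : ℕ, (0 < K0 → 0 < ε →
      ∀ (X : Type) (G' : SimpleGraph X) (e : X ↪ V) (n : ℕ), TCW.Emb E Set.univ n G' e →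
        ∀ (g L : ℝ) (W : Finset X) (h r w : X → ℝ), (∀ x, 0 ≤ r x) → (∀ x, 0 ≤ w x) →
          ColG G' {v | ∃ I : X → X → Prop, EqInc G' K0 K1 ε δ g L W h r w I v} C) := by
    intro K0 ε
    by_cases hc : 0 < K0 ∧ 0 < ε
    · obtain ⟨δ, hδ, hC⟩ := TCW.eqX_one E D0 m Set.univ R hvc hno K0 ε hc.1 hc.2
      refine ⟨δ, hδ, fun K1 => ?_⟩
      obtain ⟨C, hC'⟩ := hC K1
      exact ⟨C, fun _ _ => hC'⟩
    · exact ⟨1, one_pos, fun K1 => ⟨0, fun h1 h2 => absurd ⟨h1, h2⟩ hc⟩⟩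
  choose ηB hηB CB hCB using hB
  choose δE hδE CE hCE using hE
  refine ⟨⟨ηB, hηB, CB, δE, hδE, CE⟩, fun X G e n he => ⟨?_, ?_⟩⟩
  · intro m' hm' q v0 K0 ε h2 h3 h4 k h5 h6 Ω
    exact hCB m' q v0 K0 ε k hm' h2 h3 h4 h5 h6 X Ω G e n he
  · intro K0 ε K1 h1 h2
    exact hCE K0 ε K1 h1 h2 X G e n he

/-- The vertices of a fibre. -/
noncomputable def emb {V : Type} (E : Env V) (n : ℕ) : {v // E.c v = n} ↪ V :=
  Function.Embedding.subtype _

noncomputable instance fin {V : Type} (E : Env V) (n : ℕ) : Fintype {v // E.c v = n} :=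
  Fintype.subtype (E.fib n) (E.mem_fib n)

/-- The induced graph on a fibre is a graph of the game. -/
theorem finK {V : Type} {E : Env V} {h M k κ D : ℕ} {F : ℝ} {L : ℕ → ℕ}
    (hK : Kern E h M k κ D F L) (n : ℕ) :
    FinK (E.G.comap (emb E n)) h M (max κ 1) F where
  nt φ hφ := hK.nt (fun w => (φ w).1)
    ⟨fun u w hu hw huw => hφ.inj u w hu hw (Subtype.ext huw),
      fun u w hu hw => hφ.adj u w hu hw⟩
  nbc v := by
    obtain ⟨f, hf1, hf2⟩ := hK.nbc v.1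
    have hpos : 0 < max κ 1 := lt_max_of_lt_right one_pos
    refine ⟨fun x => ⟨f x.1 % max κ 1, Nat.mod_lt _ hpos⟩, fun u w hu hw huw hfe => ?_⟩
    have h1 : f u.1 < max κ 1 := (hf1 u.1 hu).trans_le (le_max_left _ _)
    have h2 : f w.1 < max κ 1 := (hf1 w.1 hw).trans_le (le_max_left _ _)
    have h3 := congrArg Fin.val hfe
    simp only at h3
    rw [Nat.mod_eq_of_lt h1, Nat.mod_eq_of_lt h2] at h3
    exact hf2 u.1 hu w.1 hw huw h3
  frac w hw := by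
    obtain ⟨I, h1, h2, h3⟩ := hK.frac (Finset.univ.map (emb E n))
      (fun v => if hv : E.c v = n then w ⟨v, hv⟩ else 0) (by
        intro v
        by_cases hv : E.c v = n
        · simp only [dif_pos hv]
          exact hw _
        · simp only [dif_neg hv]
          exact le_rfl)
    have hval : ∀ a : {v // E.c v = n}, (if hv : E.c (emb E n a) = n then
        w ⟨emb E n a, hv⟩ else 0) = w a := fun a => dif_pos a.2
    have hI : ∀ v ∈ I, E.c v = n := by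
      intro v hv
      obtain ⟨a, -, rfl⟩ := Finset.mem_map.1 (h1 hv)
      exact a.2
    have hI2 : (I.subtype (fun v => E.c v = n)).map (emb E n) = I := by
      ext v
      rw [Finset.mem_map]
      constructor
      · rintro ⟨a, ha, rfl⟩
        exact Finset.mem_subtype.1 ha
      · exact fun hv => ⟨⟨v, hI v hv⟩, Finset.mem_subtype.2 hv, rfl⟩
    refine ⟨I.subtype (fun v => E.c v = n), ?_, ?_⟩
    · intro a ha b hb
      rw [Finset.mem_subtype] at ha hb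
      exact h2 a.1 ha b.1 hb
    · rw [← hI2, Finset.sum_map, Finset.sum_map, Finset.sum_congr rfl fun a _ => hval a,
        Finset.sum_congr rfl fun a _ => hval a] at h3
      exact h3

end RedF_

open RedF_

/-- The reduction, from the game on finite graphs. -/
theorem redW_of_fin (hF : StFin) : StRedW := by
  intro h M hh he hM k κ D F L
  refine ⟨h, fun V E hK R hno => ?_⟩
  obtain ⟨Dw, hDw⟩ := wd E D h R hK.vc hno
  obtain ⟨b, hb⟩ := hF h M (max κ 1) F hh hM (le_max_right _ _) hK.F1 R Dw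
  refine ⟨b, TCW.cl_of_fib E Set.univ b fun n => ?_⟩
  have hemb : TCW.Emb E Set.univ n (E.G.comap (emb E n)) (emb E n) :=
    ⟨fun x y => Iff.rfl, fun x => ⟨trivial, x.2⟩⟩
  exact ⟨{v // E.c v = n}, fin E n, E.G.comap (emb E n), emb E n, hemb,
    fun v _ hv => ⟨⟨v, hv⟩, rfl⟩, hb _ _ (finK hK n) (hDw _ _ _ n hemb)⟩

/-- The frozen statement, from the game on finite graphs. -/
theorem main_of_fin (hF : StFin) :
    ∀ (n : ℕ) (F : SimpleGraph (Fin n)),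
      (∃ f : ℕ → ℕ, ∀ (V : Type) [Fintype V] (G : SimpleGraph V),
          IsEmpty (SimpleGraph.Embedding F G) →
            ∀ k : ℕ, G.CliqueFree (k + 1) → G.chromaticNumber ≤ (f k : ℕ∞))
        ↔ F.IsAcyclic :=
  main_of_w TCW.stChain (redW_of_fin hF)

end Pool.Agent.Lib.GSI
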