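import Pool.Agent.Lib.GSI.Red
import Pool.Agent.Lib.TCW.S2

/-!
# The integral Gyarfas-Sumner theorem: the interface for the equilibrium part, weak budgets

`StRedW`: in a kernel situation, if all the levels of quality `R + 1` (with the weak budget of
`TCW.OK`) live on finitely colourable sets, then the whole graph is finitely colourable.  With the
chain theorem `TCW.StChain` this gives the frozen statement.
-/

set_option autoImplicit false

namespace Pool.Agent.Lib.GSI

open Finset Classical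
open Pool.Agent.Lib.GSR3 (Tree Stab)
open Pool.Agent.Lib.GR3 (Env nb Cl Sm mem_nb)

/-- The interface for the equilibrium part. -/
def StRedW : Prop :=
  ∀ (h M : ℕ), 2 ≤ h → Even h → 2 ≤ M → ∀ (k κ D : ℕ) (F : ℝ) (L : ℕ → ℕ), ∃ m : ℕ,
    ∀ (V : Type) (E : Env V), Kern E h M k κ D F L → ∀ R : ℕ,
      (∀ D1 : TCW.Lv V, TCW.OK E.G m (fun _ _ => True) (R + 1) Set.univ D1 → Sm E D1.dom) →
        Sm E Set.univ

namespace RedW_

variable {V : Type} {W : Set V}

/-- A law on `W` as a law on `V`. -/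
noncomputable def ext (p : W →₀ ℝ) : V →₀ ℝ :=
  p.embDomain (Function.Embedding.subtype (fun v => v ∈ W))

lemma ext_apply (p : W →₀ ℝ) (a : W) : ext p a.1 = p a :=
  Finsupp.embDomain_apply_self _ p a

lemma ext_ne {p : W →₀ ℝ} {y : V} (h : ext p y ≠ 0) : ∃ a : W, a.1 = y ∧ p a ≠ 0 := by
  by_cases hy : y ∈ W
  · refine ⟨⟨y, hy⟩, rfl, fun h0 => h ?_⟩
    rw [← h0]
    exact ext_apply p ⟨y, hy⟩
  · refine absurd (Finsupp.embDomain_of_notMem_range _ p y ?_) h
    rintro ⟨a, rfl⟩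
    exact hy a.2

lemma ext_nonneg {p : W →₀ ℝ} (hp : ∀ a, 0 ≤ p a) (y : V) : 0 ≤ ext p y := by
  by_cases h : ext p y = 0
  · exact h.ge
  · obtain ⟨a, rfl, -⟩ := ext_ne h
    rw [ext_apply]
    exact hp a

lemma ext_sum (p : W →₀ ℝ) : ∑ y ∈ (ext p).support, ext p y = ∑ a ∈ p.support, p a := by
  unfold ext
  rw [Finsupp.support_embDomain, Finset.sum_map]
  exact Finset.sum_congr rfl fun a _ => Finsupp.embDomain_apply_self _ p a

lemma ext_ms (p : W →₀ ℝ) (S : Set V) : TCW.ms (ext p) S = TCW.ms p {a | a.1 ∈ S} := by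
  unfold TCW.ms ext
  rw [Finsupp.support_embDomain, Finset.sum_filter, Finset.sum_map, Finset.sum_filter]
  refine Finset.sum_congr rfl fun a _ => ?_
  have h : (Finsupp.embDomain (Function.Embedding.subtype (fun v => v ∈ W)) p)
      ((Function.Embedding.subtype (fun v => v ∈ W)) a) = p a :=
    Finsupp.embDomain_apply_self _ p a
  rw [h]
  rfl

/-- Levels pass from an induced subgraph to the graph. -/
theorem lev (E : Env V) (W : Set V) (m R : ℕ) (D : TCW.Lv W)
    (hD : TCW.OK (Red_.rst E W).G m (fun _ _ => True) R Set.univ D) :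
    ∃ D' : TCW.Lv V, TCW.OK E.G m (fun _ _ => True) R W D' ∧ D'.dom = Subtype.val '' D.dom := by
  obtain ⟨P, hP⟩ : ∃ P : ℕ → V → V →₀ ℝ, ∀ s (a : W), P s a.1 = ext (D.p s a) := by
    refine ⟨fun s v => if hv : v ∈ W then ext (D.p s ⟨v, hv⟩) else 0, fun s a => ?_⟩
    simp only [dif_pos a.2]
  refine ⟨⟨D.q, P, fun s x t => ∀ a b : W, a.1 = x → b.1 = t → D.near s a b, D.N,
    Subtype.val '' D.dom, fun _ _ => 0⟩, ?_, rfl⟩
  refine ⟨?_, hD.R1, hD.qR, ?_, ?_, ?_, ?_, ?_, ?_, ?_⟩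
  · rintro _ ⟨a, _, rfl⟩
    exact a.2
  · rintro s hs _ ⟨a, ha, rfl⟩ y
    simp only [hP]
    exact ext_nonneg (hD.nn s hs a ha) y
  · rintro s hs _ ⟨a, ha, rfl⟩
    simp only [hP]
    rw [ext_sum]
    exact hD.one s hs a ha
  · rintro s hs _ ⟨a, ha, rfl⟩ y hy
    simp only [hP] at hy
    obtain ⟨b, rfl, -⟩ := ext_ne hy
    exact ⟨b.2, trivial⟩
  · rintro s hs _ ⟨a, ha, rfl⟩ _ ⟨b, hb, rfl⟩
    simp only [hP]
    rw [ext_apply]
    exact hD.atm s hs a ha b hb
  · rintro s hs _ ⟨a, ha, rfl⟩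
    simp only [hP]
    rw [ext_ms]
    exact hD.adj s hs a ha
  · rintro r hr _ ⟨t, ht, rfl⟩ I hI hcard X hN hX
    simp only at hN hX hI ⊢
    have hXW : ∀ x ∈ X, x ∈ W := by
      intro x hx
      obtain ⟨a, -, rfl⟩ := (hX x hx).1
      exact a.2
    have hXc : (X.subtype fun v => v ∈ W).card = X.card := by
      rw [Finset.card_subtype, Finset.filter_true_of_mem hXW]
    obtain ⟨X', hX', hc, J, hJ, hJc, hJp⟩ := hD.wb r hr t ht I hI hcard
      (X.subtype fun v => v ∈ W) (by rw [hXc]; exact hN) (by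
        intro a ha
        rw [Finset.mem_subtype] at ha
        obtain ⟨⟨b, hb, hba⟩, h2⟩ := hX a.1 ha
        have hab : b = a := Subtype.ext hba
        rw [hab] at hb
        refine ⟨hb, fun s hs => ⟨(h2 s hs).1 a t rfl rfl, ?_⟩⟩
        have h3 := (h2 s hs).2
        rw [hP, ext_ms] at h3
        exact h3)
    refine ⟨X'.map (Function.Embedding.subtype (fun v => v ∈ W)), ?_, ?_, J, hJ, hJc, ?_⟩
    · intro x hx
      obtain ⟨a, ha, rfl⟩ := Finset.mem_map.1 hx
      exact Finset.mem_subtype.1 (hX' ha)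
    · rw [Finset.card_map]
      exact hc
    · intro x hx x' hx' s hs
      obtain ⟨a, ha, rfl⟩ := Finset.mem_map.1 hx
      obtain ⟨a', ha', rfl⟩ := Finset.mem_map.1 hx'
      have h1 := hP s a
      have h2 := hP s a'
      refine h1.trans (Eq.trans ?_ h2.symm)
      rw [hJp a ha a' ha' s hs]
  · rintro _ ⟨a, ha, rfl⟩ _ ⟨b, hb, rfl⟩
    refine le_trans (Finset.card_le_card ?_) (hD.conf a ha b hb)
    intro s hs
    rw [Finset.mem_filter] at hs ⊢
    refine ⟨hs.1, fun hn => hs.2 ?_⟩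
    intro a' b' ha' hb'
    rw [Subtype.ext ha', Subtype.ext hb']
    exact hn

end RedW_

/-- The theorem for one infinite graph, from the chain theorem and the equilibrium part. -/
theorem inf_of_w (hCh : TCW.StChain) (hR : StRedW) : StInf := by
  intro h M hh he hM V E k κ D F L hK
  by_contra hcon
  obtain ⟨m, hm⟩ := hR h M hh he hM k κ D F L
  have hG : ¬ TCW.Good E.G (Bg E) m (fun _ _ => True) Set.univ :=
    hCh V E.G (Bg E) m k h M D (ide_bg E) (adj_finite E) hK.cf hK.nt hK.vc Set.univ hcon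
  unfold TCW.Good at hG
  push Not at hG
  obtain ⟨W, -, hW, R, hno⟩ := hG
  refine hW ?_
  obtain ⟨N, hN⟩ := hm W (Red_.rst E W) (Red_.kern hK W) R fun D1 hD1 => by
    obtain ⟨D', hD', hdom⟩ := RedW_.lev E W m (R + 1) D1 hD1
    have h1 : Sm E D'.dom := by
      by_contra h2
      exact hno D' hD' h2
    rw [hdom] at h1
    obtain ⟨C, hC⟩ := h1
    exact ⟨C, Red_.cl_rst.2 hC⟩
  refine ⟨N, ?_⟩
  rw [Red_.cl_rst] at hN
  exact hN.mono (fun v hv => ⟨⟨v, hv⟩, trivial, rfl⟩) le_rfl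

/-- The frozen statement, from the chain theorem and the equilibrium part. -/
theorem main_of_w (hCh : TCW.StChain) (hR : StRedW) :
    ∀ (n : ℕ) (F : SimpleGraph (Fin n)),
      (∃ f : ℕ → ℕ, ∀ (V : Type) [Fintype V] (G : SimpleGraph V),
          IsEmpty (SimpleGraph.Embedding F G) →
            ∀ k : ℕ, G.CliqueFree (k + 1) → G.chromaticNumber ≤ (f k : ℕ∞))
        ↔ F.IsAcyclic :=
  main_of_core (core_of_inf (inf_of_w hCh hR))

end Pool.Agent.Lib.GSI
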