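import Pool.Agent.Lib.GSI.Defs
import Mathlib.Data.List.Nodup

/-!
# The integral Gyarfas-Sumner theorem: full trees in breadth first order
-/

set_option autoImplicit false

namespace Pool.Agent.Lib.GSI

open Finset Classical
open Pool.Agent.Lib.FracGS (pat TAdj)
open Pool.Agent.Lib.GSR3 (Tree Stab)

variable {V : Type} {G : SimpleGraph V}

/-- Injective maps of the alphabets preserve adjacency of words. -/
lemma tadj_map {M N : ℕ} (c : Fin M → Fin N) (hc : Function.Injective c)
    (u w : List (Fin M)) : TAdj (u.map c) (w.map c) ↔ TAdj u w := by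
  have key : ∀ a b : List (Fin M), (∃ t, a.map c = t :: b.map c) ↔ ∃ t, a = t :: b := by
    intro a b
    constructor
    · rintro ⟨t, h⟩
      cases a with
      | nil => rw [List.map_nil] at h; cases h
      | cons s a =>
        rw [List.map_cons] at h
        exact ⟨s, by rw [(List.map_injective_iff.mpr hc) (List.cons.inj h).2]⟩
    · rintro ⟨t, rfl⟩
      exact ⟨c t, by rw [List.map_cons]⟩
  unfold TAdj
  rw [key u w, key w u]

/-- The full tree with larger parameters contains the full tree with smaller parameters. -/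
lemma Tree.mono {h h' M M' : ℕ} (hh : h ≤ h') (hM : M ≤ M') {φ : List (Fin M') → V}
    (hT : Tree G h' M' φ) : Tree G h M (fun w => φ (w.map (Fin.castLE hM))) := by
  have hc : Function.Injective (Fin.castLE hM : Fin M → Fin M') := Fin.castLE_injective hM
  constructor
  · intro u w hu hw he
    have h1 := hT.inj _ _ (by rw [List.length_map]; omega) (by rw [List.length_map]; omega) he
    exact (List.map_injective_iff.mpr hc) h1
  · intro u w hu hw
    rw [hT.adj _ _ (by rw [List.length_map]; omega) (by rw [List.length_map]; omega),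
      tadj_map _ hc]

/-- Induced trees and embeddings. -/
lemma Tree.map {V' : Type} {G' : SimpleGraph V'} (e : G' ↪g G) {h M : ℕ}
    {φ : List (Fin M) → V'} (hT : Tree G' h M φ) : Tree G h M (fun w => e (φ w)) :=
  ⟨fun u w hu hw he => hT.inj u w hu hw (e.injective he),
    fun u w hu hw => e.map_adj_iff.trans (hT.adj u w hu hw)⟩

/-- The number of a word in the breadth first order. -/
def num {M : ℕ} : List (Fin M) → ℕ
  | [] => 0
  | t :: w => M * num w + 1 + t

lemma num_cons {M : ℕ} (t : Fin M) (w : List (Fin M)) : num (t :: w) = M * num w + 1 + t := rfl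

lemma num_div {M : ℕ} (t : Fin M) (w : List (Fin M)) : (num (t :: w) - 1) / M = num w := by
  have hM : 0 < M := t.pos
  rw [num_cons, show M * num w + 1 + (t : ℕ) - 1 = M * num w + t by omega,
    Nat.mul_add_div hM, Nat.div_eq_of_lt t.2, add_zero]

lemma num_mod {M : ℕ} (t : Fin M) (w : List (Fin M)) : (num (t :: w) - 1) % M = t := by
  rw [num_cons, show M * num w + 1 + (t : ℕ) - 1 = M * num w + t by omega,
    Nat.mul_add_mod, Nat.mod_eq_of_lt t.2]

lemma num_pos {M : ℕ} (t : Fin M) (w : List (Fin M)) : 0 < num (t :: w) := by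
  rw [num_cons]
  omega

lemma num_lt {M : ℕ} (t : Fin M) (w : List (Fin M)) : num w < num (t :: w) := by
  have hM : 0 < M := t.pos
  have h1 : num w ≤ M * num w := Nat.le_mul_of_pos_left _ hM
  rw [num_cons]
  omega

lemma num_inj {M : ℕ} : ∀ u w : List (Fin M), num u = num w → u = w
  | [], [], _ => rfl
  | [], t :: w, h => absurd h (num_pos t w).ne
  | t :: u, [], h => absurd h (num_pos t u).ne'
  | s :: u, t :: w, h => by
    have h1 : s = t := Fin.ext (by rw [← num_mod s u, ← num_mod t w, h])
    have h2 : num u = num w := by rw [← num_div s u, ← num_div t w, h]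
    rw [h1, num_inj u w h2]

lemma num_bound {M : ℕ} (w : List (Fin M)) : num w + 1 ≤ (M + 1) ^ (w.length + 1) := by
  induction w with
  | nil => simp [num]
  | cons t w ih =>
    rw [num_cons, List.length_cons, pow_succ]
    have h1 : M * (num w + 1) ≤ M * (M + 1) ^ (w.length + 1) := Nat.mul_le_mul_left _ ih
    have h2 : (t : ℕ) < M := t.2
    have h3 : 1 ≤ (M + 1) ^ (w.length + 1) := Nat.one_le_pow _ _ (by omega)
    calc M * num w + 1 + t + 1 ≤ M * (num w + 1) + 1 := by rw [mul_add]; omega
      _ ≤ M * (M + 1) ^ (w.length + 1) + (M + 1) ^ (w.length + 1) := Nat.add_le_add h1 h3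
      _ = (M + 1) ^ (w.length + 1) * (M + 1) := by ring

/-- The parent relation in the breadth first order. -/
lemma num_par {M : ℕ} (u w : List (Fin M)) :
    (num u < num w ∧ (num w - 1) / M = num u) ↔ ∃ t, w = t :: u := by
  constructor
  · rintro ⟨h1, h2⟩
    cases w with
    | nil => exact absurd h1 (Nat.not_lt_zero _)
    | cons t w =>
      rw [num_div] at h2
      exact ⟨t, by rw [num_inj w u h2]⟩
  · rintro ⟨t, rfl⟩
    exact ⟨num_lt t u, num_div t u⟩

/-- A long initial segment of the regular tree contains the full tree. -/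
theorem tree_of_pat {h M n : ℕ} (hn : (M + 1) ^ (h + 1) ≤ n)
    (f : pat (fun j => (j - 1) / M) n ↪g G) : ∃ φ : List (Fin M) → V, Tree G h M φ := by
  have h0 : 0 < n := lt_of_lt_of_le (pow_pos (by omega) _) hn
  have hlt : ∀ w : List (Fin M), w.length ≤ h → num w < n := by
    intro w hw
    have h1 := num_bound w
    have h2 : (M + 1) ^ (w.length + 1) ≤ (M + 1) ^ (h + 1) :=
      Nat.pow_le_pow_right (by omega) (by omega)
    omega
  refine ⟨fun w => if hw : num w < n then f ⟨num w, hw⟩ else f ⟨0, h0⟩, ?_, ?_⟩
  · intro u w hu hw he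
    rw [dif_pos (hlt u hu), dif_pos (hlt w hw)] at he
    exact num_inj u w (Fin.mk.inj_iff.1 (f.injective he))
  · intro u w hu hw
    rw [dif_pos (hlt u hu), dif_pos (hlt w hw), f.map_adj_iff]
    change ((num u < num w ∧ (num w - 1) / M = num u) ∨
      (num w < num u ∧ (num u - 1) / M = num w)) ↔ _
    rw [num_par u w, num_par w u]
    unfold TAdj
    exact or_comm

/-- The word of a number. -/
def wrd (M : ℕ) [NeZero M] : ℕ → List (Fin M)
  | 0 => []
  | j + 1 => Fin.ofNat M j :: wrd M (j / M)
decreasing_by exact Nat.lt_succ_of_le (Nat.div_le_self _ _)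

lemma num_wrd (M : ℕ) [NeZero M] (j : ℕ) : num (wrd M j) = j := by
  induction j using Nat.strong_induction_on with
  | _ j ih =>
    cases j with
    | zero => rw [wrd]; rfl
    | succ j =>
      rw [wrd, num_cons, ih _ (Nat.lt_succ_of_le (Nat.div_le_self _ _))]
      have h1 : ((Fin.ofNat M j : Fin M) : ℕ) = j % M := rfl
      rw [h1]
      have h2 := Nat.div_add_mod j M
      omega

lemma wrd_length (M : ℕ) [NeZero M] (j : ℕ) : (wrd M j).length ≤ j := by
  induction j using Nat.strong_induction_on with
  | _ j ih =>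
    cases j with
    | zero => rw [wrd]; simp
    | succ j =>
      rw [wrd, List.length_cons]
      have h1 := ih _ (Nat.lt_succ_of_le (Nat.div_le_self j M))
      have h2 := Nat.div_le_self j M
      omega

/-- The full tree contains initial segments of the regular tree. -/
theorem pat_of_tree {h M n : ℕ} (hM : 1 ≤ M) (hn : n ≤ h + 1) {φ : List (Fin M) → V}
    (hT : Tree G h M φ) : Nonempty (pat (fun j => (j - 1) / M) n ↪g G) := by
  have hM' : NeZero M := ⟨by omega⟩
  have hlen : ∀ i : Fin n, (wrd M i.1).length ≤ h := fun i =>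
    (wrd_length M i.1).trans (by have := i.2; omega)
  refine ⟨⟨⟨fun i => φ (wrd M i.1), ?_⟩, ?_⟩⟩
  · intro i j hij
    have h1 := hT.inj _ _ (hlen i) (hlen j) hij
    have h2 : num (wrd M i.1) = num (wrd M j.1) := by rw [h1]
    rw [num_wrd, num_wrd] at h2
    exact Fin.ext h2
  · intro i j
    change G.Adj (φ (wrd M i.1)) (φ (wrd M j.1)) ↔ _
    rw [hT.adj _ _ (hlen i) (hlen j)]
    unfold TAdj
    rw [← num_par (wrd M j.1) (wrd M i.1), ← num_par (wrd M i.1) (wrd M j.1), num_wrd, num_wrd]
    exact or_comm

end Pool.Agent.Lib.GSI
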